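import Pool.Agent.P.MP_5e147a_al.H16.Level

set_option autoImplicit false

namespace Pool.Agent.P.MP_5e147a_al.H16

open Equiv Multiplicative

variable {A B : Type} [Group A] [Group B]

/-- Admissible voltages. -/
structure LiftData {W : Wall A B} (c : Cls W) where
  G : Type
  fin : Finite G
  DA : Subgroup (Perm G)
  DB : Subgroup (Perm G)
  νA : c.CA → Perm G
  νB : c.CB → Perm G
  hDA : IsPGroup 2 DA
  hDB : IsPGroup 3 DB
  hνA : ∀ c0, νA c0 ∈ DA
  hνB : ∀ c0, νB c0 ∈ DB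

instance {W : Wall A B} {c : Cls W} (L : LiftData c) : Finite L.G := L.fin

def LiftData.wall {W : Wall A B} {c : Cls W} (L : LiftData c) : Wall A B :=
  W.lift L.G fun e => L.νB (c.cB e) * L.νA (c.cA e)

/-- Push voltages along a homomorphism. -/
def LiftData.map {W : Wall A B} {c : Cls W} (L : LiftData c) (G' : Type) [Finite G']
    (θ : Perm L.G →* Perm G') : LiftData c where
  G := G'
  fin := inferInstance
  DA := L.DA.map θ
  DB := L.DB.map θ
  νA c0 := θ (L.νA c0)
  νB c0 := θ (L.νB c0)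
  hDA := L.hDA.map θ
  hDB := L.hDB.map θ
  hνA c0 := ⟨_, L.hνA c0, rfl⟩
  hνB c0 := ⟨_, L.hνB c0, rfl⟩

/-- A map of fibres intertwining the voltages gives a morphism. -/
def fibMor (W : Wall A B) {F1 F2 : Type} [Finite F1] [Finite F2] (ν1 : W.X × Bool → Perm F1)
    (ν2 : W.X × Bool → Perm F2) (h : F1 → F2) (hh : ∀ e f, h (ν1 e f) = ν2 e (h f)) :
    Mor (W.lift F1 ν1) (W.lift F2 ν2) where
  f := fun z => (z.1, h z.2)
  f' := fun z => (z.1, h z.2)
  hA := fun _ _ => rfl
  hB := fun _ _ => rfl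
  hj := fun i z => Prod.ext rfl (hh (z.1, i) z.2)

theorem LiftData.regular {W : Wall A B} {c : Cls W} (L : LiftData c) [Nonempty L.G] (s : SG A B)
    (ξ : W.X) (γ : Perm L.G) :
    (L.map (Perm L.G) (MulAction.toPermHom _ _)).wall.act s (ξ, γ) = (ξ, γ) ↔
      ∀ f, L.wall.act s (ξ, f) = (ξ, f) := by
  have key : ∀ (f0 : L.G) (z : W.X × Perm L.G),
      (L.map (Perm L.G) (MulAction.toPermHom _ _)).wall.act s (ξ, γ) = z →
      (z.1, z.2 f0) = L.wall.act s (ξ, γ f0) := by
    rintro f0 z rfl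
    exact (fibMor W (F1 := Perm L.G) (F2 := L.G)
      (fun e => MulAction.toPermHom _ _ (L.νB (c.cB e)) * MulAction.toPermHom _ _ (L.νA (c.cA e)))
      (fun e => L.νB (c.cB e) * L.νA (c.cA e))
      (fun γ => γ f0) (fun _ _ => rfl)).act s (ξ, γ)
  constructor
  · intro h f
    obtain ⟨f, rfl⟩ := γ.surjective f
    exact (key f _ h).symm
  · intro h
    refine Prod.ext ?_ (Equiv.ext fun f0 => ?_)
    · exact (Prod.ext_iff.1 ((key (Classical.arbitrary _) _ rfl).trans (h _))).1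
    · exact (Prod.ext_iff.1 ((key f0 _ rfl).trans (h _))).2

theorem LiftData.copies {W : Wall A B} {c : Cls W} (L : LiftData c) (I : Type) [Finite I]
    (s : SG A B) (ξ : W.X) (f : L.G) (i : I) :
    (L.map (L.G × I) (fstHom (MonoidHom.id _) I)).wall.act s (ξ, f, i) = (ξ, f, i) ↔
      L.wall.act s (ξ, f) = (ξ, f) := by
  have key : (((L.wall.act s (ξ, f)).1, (L.wall.act s (ξ, f)).2, i) : W.X × L.G × I) =
      (L.map (L.G × I) (fstHom (MonoidHom.id _) I)).wall.act s (ξ, f, i) :=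
    (fibMor W (F1 := L.G) (F2 := L.G × I) (fun e => L.νB (c.cB e) * L.νA (c.cA e)) _
      (fun f => (f, i)) (fun _ _ => rfl)).act s (ξ, f)
  rw [← key]
  constructor
  · intro h
    exact Prod.ext (Prod.ext_iff.1 h).1 (Prod.ext_iff.1 (Prod.ext_iff.1 h).2).1
  · intro h
    rw [h]

theorem side (W : Wall A B) (c : Cls W) (N : Subgroup (SG A B)) (hN : Good N)
    (hker : N ≤ W.act.ker) (t : Tok (reg N hN)) (Z : Type) [Finite Z] [Nonempty Z]
    (φA : Multiplicative ((reg N hN).X × Bool → ZMod 2) →* Perm Z)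
    (φB : Multiplicative ((reg N hN).X × Bool → ZMod 3) →* Perm Z)
    (h3 : ∀ k, (Wm φA φB).act.ker ≤ (W3 c (regMor N hN W hker k) t).act.ker) :
    ∃ L : LiftData c, Nonempty L.G ∧ ∀ s z, L.wall.act s z = z ↔ s ∈ (Wm φA φB).act.ker := by
  have : Fact (Nat.Prime 3) := ⟨Nat.prime_three⟩
  let π := fun k => regMor N hN W hker k
  have hr2 : IsPGroup 2 φA.range := isPGroup_range φA
  have hr3 : IsPGroup 3 φB.range := isPGroup_range φB
  let L : LiftData c :=
    { G := W.X × (t.T × Z)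
      fin := inferInstance
      DA := Sk ⊥ (Sk t.u.range φA.range)
      DB := Sk ⊥ (Sk t.v.range φB.range)
      νA := fun c0 => Equiv.prodShear 1 fun k => nuA c (π k) t φA c0
      νB := fun c0 => Equiv.prodShear 1 fun k => nuB c (π k) t φB c0
      hDA := isPGroup_Sk IsPGroup.of_bot (isPGroup_Sk (isPGroup_range _) hr2)
      hDB := isPGroup_Sk IsPGroup.of_bot (isPGroup_Sk (isPGroup_range _) hr3)
      hνA := fun c0 => shear_mem_Sk (Subgroup.one_mem _) fun k =>
        shear_mem_Sk (K := t.u.range) (D := φA.range) ⟨_, rfl⟩ fun _ => ⟨_, rfl⟩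
      hνB := fun c0 => shear_mem_Sk (Subgroup.one_mem _) fun k =>
        shear_mem_Sk (K := t.v.range) (D := φB.range) ⟨_, rfl⟩ fun _ => ⟨_, rfl⟩ }
  have key : ∀ (k : W.X) (s : SG A B) (z : W.X × (t.T × Z)),
      ((((W2 c (π k) t φA φB).act s z).1, k, ((W2 c (π k) t φA φB).act s z).2) :
        W.X × W.X × (t.T × Z)) = L.wall.act s (z.1, k, z.2) := fun k s z =>
    (fibMor W (F1 := t.T × Z) (F2 := L.G)
      (fun e => nuB c (π k) t φB (c.cB e) * nuA c (π k) t φA (c.cA e))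
      (fun e => L.νB (c.cB e) * L.νA (c.cA e)) (fun f => (k, f)) (fun _ _ => rfl)).act s z
  refine ⟨L.map (Perm L.G) (MulAction.toPermHom _ _), ⟨(1 : Perm L.G)⟩, ?_⟩
  rintro s ⟨ξ, γ⟩
  have : Nonempty L.G := ⟨(ξ, t.tx (rk N hN 1), Classical.arbitrary Z)⟩
  refine (L.regular s ξ γ).trans ?_
  constructor
  · intro h
    rw [MonoidHom.mem_ker]
    ext1 ⟨q, z⟩
    obtain ⟨r, rfl⟩ := rk_surj N hN q
    let k := W.act r⁻¹ ξ
    have hk : (π k).f (rk N hN r) = ξ := by
      rw [regMor_rk]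
      simp [k]
    apply morMain_inj c (π k) t φA φB
    rw [Mor.act]
    have h1 := key k s (ξ, t.tx (rk N hN r), z)
    rw [h] at h1
    have h2 : (W2 c (π k) t φA φB).act s (ξ, t.tx (rk N hN r), z) = (ξ, t.tx (rk N hN r), z) :=
      Prod.ext (Prod.ext_iff.1 h1).1 (Prod.ext_iff.1 (Prod.ext_iff.1 h1).2).2
    rw [← hk] at h2
    exact h2
  · rintro hs ⟨k, τ, z⟩
    have h2 : (W2 c (π k) t φA φB).act s (ξ, τ, z) = (ξ, τ, z) := by
      by_cases hm : Main (π k) t ξ τ
      · obtain ⟨q, rfl, rfl⟩ := hm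
        have := (morMain c (π k) t φA φB).act s (q, z)
        rw [MonoidHom.mem_ker.1 hs] at this
        exact this.symm
      · exact fix_nonmain c (π k) t φA φB s (h3 k hs) ξ τ z hm
    rw [← key k s (ξ, τ, z), h2]

theorem equalize (W W' : Wall A B) (c : Cls W) (c' : Cls W') [Nonempty W'.X] :
    ∃ (L : LiftData c) (L' : LiftData c') (ψ : L.wall.X ≃ L'.wall.X), Nonempty L.G ∧
      ∀ s ξ, ψ (L.wall.act s ξ) = L'.wall.act s (ψ ξ) := by
  obtain ⟨ξ0⟩ := ‹Nonempty W'.X›
  have good : ∀ N : Subgroup (SG A B), N.Normal → N.FiniteIndex → N ≤ W'.act.ker → Good N := by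
    intro N h1 h2 h3
    refine ⟨h1, h2, fun x hx => W'.freeA x ξ0 ?_, fun y hy => W'.freeB y (W'.j true ξ0) ?_⟩
    · rw [← Wall.act_sA, MonoidHom.mem_ker.1 (h3 hx)]
      rfl
    · have := W'.act_sB y ξ0
      rw [MonoidHom.mem_ker.1 (h3 hy), Equiv.eq_symm_apply] at this
      exact this.symm
  let N := W.act.ker ⊓ W'.act.ker
  have hN : Good N := good N inferInstance inferInstance inf_le_right
  obtain ⟨t⟩ := exists_tok (reg N hN)
  let N2 := (N ⊓ ⨅ k, (W3 c (regMor N hN W inf_le_left k) t).act.ker) ⊓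
    ⨅ k, (W3 c' (regMor N hN W' inf_le_right k) t).act.ker
  have hN2 : Good N2 := by
    refine good N2 ?_ ?_ (inf_le_left.trans (inf_le_left.trans inf_le_right))
    · have := hN.normal
      have := Subgroup.normal_iInf_normal
        (a := fun k => (W3 c (regMor N hN W inf_le_left k) t).act.ker) fun _ => inferInstance
      have := Subgroup.normal_iInf_normal
        (a := fun k => (W3 c' (regMor N hN W' inf_le_right k) t).act.ker) fun _ => inferInstance
      infer_instance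
    · have := hN.fi
      have := Subgroup.finiteIndex_iInf
        (f := fun k => (W3 c (regMor N hN W inf_le_left k) t).act.ker) fun _ => inferInstance
      have := Subgroup.finiteIndex_iInf
        (f := fun k => (W3 c' (regMor N hN W' inf_le_right k) t).act.ker) fun _ => inferInstance
      infer_instance
  obtain ⟨t2⟩ := exists_tok (reg N2 hN2)
  let ϖ : Mor (reg N2 hN2) (reg N hN) := regMor N2 hN2 (reg N hN)
    ((inf_le_left.trans inf_le_left).trans (reg_ker N hN)) (rk N hN 1)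
  have : Nonempty t2.T := ⟨t2.tx (rk N2 hN2 1)⟩
  have hΞ : (Wm (t2.u.comp (pull ϖ.e)) (t2.v.comp (pull ϖ.e))).act.ker ≤ N2 := by
    intro s hs
    apply mem_of_reg_act N2 hN2
    apply morDeep_inj ϖ t2
    rw [Mor.act, MonoidHom.mem_ker.1 hs]
    rfl
  obtain ⟨L, ⟨g0⟩, hL⟩ := side W c N hN inf_le_left t t2.T _ _ fun k =>
    hΞ.trans (inf_le_left.trans (inf_le_right.trans (iInf_le _ k)))
  obtain ⟨L', ⟨g0'⟩, hL'⟩ := side W' c' N hN inf_le_right t t2.T _ _ fun k =>
    hΞ.trans (inf_le_right.trans (iInf_le _ k))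
  let M := L.map (L.G × (W'.X × L'.G)) (fstHom (MonoidHom.id _) _)
  let M' := L'.map (L'.G × (W.X × L.G)) (fstHom (MonoidHom.id _) _)
  obtain ⟨ψ, hψ, -⟩ := exists_matching (ι := Empty) _ M.wall.act M'.wall.act
    (fun s ⟨ξ, f, i⟩ => (L.copies _ s ξ f i).trans (hL s _))
    (fun s ⟨ξ, f, i⟩ => (L'.copies _ s ξ f i).trans (hL' s _))
    (by
      show Nat.card (W.X × (L.G × (W'.X × L'.G))) = Nat.card (W'.X × (L'.G × (W.X × L.G)))
      simp only [Nat.card_prod]
      ring) Empty.elim Empty.elim (fun i => i.elim) (fun i => i.elim)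
  exact ⟨M, M', ψ, ⟨(g0, ξ0, g0')⟩, hψ⟩

end Pool.Agent.P.MP_5e147a_al.H16
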