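import Pool.Agent.P.MP_5e147a_al.H16.Tok

set_option autoImplicit false

namespace Pool.Agent.P.MP_5e147a_al.H16

open Equiv Multiplicative

variable {A B : Type} [Group A] [Group B]

/-- Classes of half edges. -/
structure Cls (W : Wall A B) where
  CA : Type
  CB : Type
  cA : W.X × Bool → CA
  cB : W.X × Bool → CB
  injA : ∀ e e', W.sameA e e' → cA e' = cA e → e' = e
  injB : ∀ e e', W.sameB e e' → cB e' = cB e → e' = e
  alt : Function.Injective cA ∨ Function.Injective cB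

def Mor.e {P W : Wall A B} (π : Mor P W) (e : P.X × Bool) : W.X × Bool := (π.f e.1, e.2)

theorem Mor.sameA {P W : Wall A B} (π : Mor P W) {e e' : P.X × Bool} (h : P.sameA e e') :
    W.sameA (π.e e) (π.e e') := by
  obtain ⟨x, hx⟩ := h
  exact ⟨x, by show π.f e'.1 = _; rw [hx, π.hA]; rfl⟩

theorem Mor.sameB {P W : Wall A B} (π : Mor P W) {e e' : P.X × Bool} (h : P.sameB e e') :
    W.sameB (π.e e) (π.e e') := by
  obtain ⟨y, hy⟩ := h
  refine ⟨y, ?_⟩
  show W.j e'.2 (π.f e'.1) = W.ρB y (W.j e.2 (π.f e.1))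
  rw [← π.hj, ← π.hj, hy, π.hB]

theorem Mor.injA {P W : Wall A B} (π : Mor P W) {e e' : P.X × Bool} (h : P.sameA e e')
    (h' : π.e e' = π.e e) : e' = e := by
  obtain ⟨x, hx⟩ := h
  have h1 : π.f e'.1 = π.f e.1 := congrArg Prod.fst h'
  have h2 : e'.2 = e.2 := (Prod.ext_iff.1 h').2
  rw [hx, π.hA] at h1
  have := W.freeA _ _ h1
  subst this
  exact Prod.ext (by simpa using hx) h2

theorem Mor.injB {P W : Wall A B} (π : Mor P W) {e e' : P.X × Bool} (h : P.sameB e e')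
    (h' : π.e e' = π.e e) : e' = e := by
  obtain ⟨y, hy⟩ := h
  have h1 : π.f e'.1 = π.f e.1 := congrArg Prod.fst h'
  have h2 : e'.2 = e.2 := (Prod.ext_iff.1 h').2
  have h3 := congrArg π.f' hy
  rw [π.hB, π.hj, π.hj, h1, h2] at h3
  have := W.freeB _ _ h3.symm
  subst this
  rw [h2] at hy
  exact Prod.ext ((P.j e.2).injective (by simpa using hy)) h2

open Classical in
/-- Indicator of a proposition. -/
noncomputable def ind (R : Type) [Zero R] [One R] (p : Prop) : R := if p then 1 else 0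

theorem ind_pos {R : Type} [Zero R] [One R] {p : Prop} (h : p) : ind R p = 1 := if_pos h
theorem ind_neg {R : Type} [Zero R] [One R] {p : Prop} (h : ¬p) : ind R p = 0 := if_neg h

section level
variable {W P : Wall A B} (c : Cls W) (π : Mor P W) (t : Tok P)

noncomputable def uA (c0 : c.CA) : Perm t.T := t.u (ofAdd fun e => ind _ (c.cA (π.e e) = c0))
noncomputable def vB (c0 : c.CB) : Perm t.T := t.v (ofAdd fun e => ind _ (c.cB (π.e e) = c0))
noncomputable def lA (c0 : c.CA) (τ : t.T) : P.X × Bool → ZMod 2 :=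
  fun e => ind _ (c.cA (π.e e) = c0 ∧ τ = t.tx e.1)
noncomputable def lB (c0 : c.CB) (τ : t.T) : P.X × Bool → ZMod 3 :=
  fun e => ind _ (c.cB (π.e e) = c0 ∧ τ = t.m e)

theorem uA_main (e : P.X × Bool) : uA c π t (c.cA (π.e e)) (t.tx e.1) = t.m e :=
  t.hu e _ (ind_pos rfl) fun _ h hne =>
    ind_neg fun h' => hne (π.injA h (c.injA _ _ (π.sameA h) h'))

theorem vB_main (e : P.X × Bool) : vB c π t (c.cB (π.e e)) (t.m e) = t.ty (P.j e.2 e.1) :=
  t.hv e _ (ind_pos rfl) fun _ h hne =>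
    ind_neg fun h' => hne (π.injB h (c.injB _ _ (π.sameB h) h'))

theorem lA_main (e : P.X × Bool) :
    lA c π t (c.cA (π.e e)) (t.tx e.1) = fun e' => ind _ (e' = e) := by
  funext e'
  by_cases h : e' = e
  · subst h
    rw [ind_pos rfl]
    exact ind_pos ⟨rfl, rfl⟩
  · rw [ind_neg h]
    refine ind_neg fun ⟨h1, h2⟩ => h ?_
    have h3 : P.sameA e e' := t.tx_inj _ _ h2.symm
    exact π.injA h3 (c.injA _ _ (π.sameA h3) h1)

theorem lB_main (e : P.X × Bool) :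
    lB c π t (c.cB (π.e e)) (t.m e) = fun e' => ind _ (e' = e) := by
  funext e'
  by_cases h : e' = e
  · subst h
    rw [ind_pos rfl]
    exact ind_pos ⟨rfl, rfl⟩
  · rw [ind_neg h]
    exact ind_neg fun ⟨_, h2⟩ => h (t.m_inj h2).symm

def Main (ξ : W.X) (τ : t.T) : Prop := ∃ q, ξ = π.f q ∧ τ = t.tx q
def Main' (η : W.Y) (τ : t.T) : Prop := ∃ q, η = π.f' q ∧ τ = t.ty q

theorem main_A (x : A) (ξ : W.X) (τ : t.T) : Main π t (W.ρA x ξ) τ ↔ Main π t ξ τ := by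
  constructor
  · rintro ⟨q, h1, h2⟩
    refine ⟨P.ρA x⁻¹ q, ?_, by rw [t.txA, h2]⟩
    rw [π.hA, ← h1]
    simp
  · rintro ⟨q, h1, h2⟩
    exact ⟨P.ρA x q, by rw [π.hA, h1], by rw [t.txA, h2]⟩

theorem main_B (y : B) (η : W.Y) (τ : t.T) : Main' π t (W.ρB y η) τ ↔ Main' π t η τ := by
  constructor
  · rintro ⟨q, h1, h2⟩
    refine ⟨P.ρB y⁻¹ q, ?_, by rw [t.tyB, h2]⟩
    rw [π.hB, ← h1]
    simp
  · rintro ⟨q, h1, h2⟩
    exact ⟨P.ρB y q, by rw [π.hB, h1], by rw [t.tyB, h2]⟩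

theorem main_j (i : Bool) (ξ : W.X) (τ : t.T) :
    Main' π t (W.j i ξ) (vB c π t (c.cB (ξ, i)) (uA c π t (c.cA (ξ, i)) τ)) ↔ Main π t ξ τ := by
  constructor
  · rintro ⟨q', h1, h2⟩
    obtain ⟨q, rfl⟩ := (P.j i).surjective q'
    rw [π.hj] at h1
    have h3 := (W.j i).injective h1
    subst h3
    refine ⟨q, rfl, ?_⟩
    have h4 := vB_main c π t (q, i)
    rw [← uA_main c π t (q, i)] at h4
    exact (uA c π t _).injective ((vB c π t _).injective (h2.trans h4.symm))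
  · rintro ⟨q, rfl, rfl⟩
    refine ⟨P.j i q, (π.hj i q).symm, ?_⟩
    have h4 := vB_main c π t (q, i)
    rw [← uA_main c π t (q, i)] at h4
    exact h4

theorem lA_nonmain (h : Function.Injective c.cA) (i : Bool) (ξ : W.X) (τ : t.T)
    (hn : ¬Main π t ξ τ) : lA c π t (c.cA (ξ, i)) τ = 0 := by
  funext e
  refine ind_neg fun ⟨h1, h2⟩ => hn ⟨e.1, ?_, h2⟩
  exact (congrArg Prod.fst (h h1)).symm

theorem lB_nonmain (h : Function.Injective c.cB) (i : Bool) (ξ : W.X) (τ : t.T)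
    (hn : ¬Main π t ξ τ) : lB c π t (c.cB (ξ, i)) (uA c π t (c.cA (ξ, i)) τ) = 0 := by
  funext e
  refine ind_neg fun ⟨h1, h2⟩ => hn ⟨e.1, (congrArg Prod.fst (h h1)).symm, ?_⟩
  rw [← h h1, ← uA_main c π t e] at h2
  exact (uA c π t _).injective h2

variable {Z : Type} [Finite Z] (φA : Multiplicative (P.X × Bool → ZMod 2) →* Perm Z)
  (φB : Multiplicative (P.X × Bool → ZMod 3) →* Perm Z)

noncomputable def nuA (c0 : c.CA) : Perm (t.T × Z) :=
  Equiv.prodShear (uA c π t c0) fun τ => φA (ofAdd (lA c π t c0 τ))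
noncomputable def nuB (c0 : c.CB) : Perm (t.T × Z) :=
  Equiv.prodShear (vB c π t c0) fun τ => φB (ofAdd (lB c π t c0 τ))

/-- The two level lift. -/
noncomputable def W2 : Wall A B :=
  W.lift (t.T × Z) fun e => nuB c π t φB (c.cB e) * nuA c π t φA (c.cA e)

theorem W2_j (i : Bool) (ξ : W.X) (τ : t.T) (z : Z) :
    (W2 c π t φA φB).j i (ξ, τ, z) = (W.j i ξ, vB c π t (c.cB (ξ, i)) (uA c π t (c.cA (ξ, i)) τ),
      φB (ofAdd (lB c π t (c.cB (ξ, i)) (uA c π t (c.cA (ξ, i)) τ)))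
        (φA (ofAdd (lA c π t (c.cA (ξ, i)) τ)) z)) := rfl

/-- The intrinsic model. -/
noncomputable def Wm : Wall A B :=
  P.lift Z fun e => φB (ofAdd fun e' => ind _ (e' = e)) * φA (ofAdd fun e' => ind _ (e' = e))

noncomputable def morMain : Mor (Wm φA φB) (W2 c π t φA φB) where
  f := fun z => (π.f z.1, t.tx z.1, z.2)
  f' := fun z => (π.f' z.1, t.ty z.1, z.2)
  hA := by
    rintro x ⟨q, z⟩
    show (π.f (P.ρA x q), t.tx (P.ρA x q), z) = (W.ρA x (π.f q), t.tx q, z)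
    rw [π.hA, t.txA]
  hB := by
    rintro y ⟨q, z⟩
    show (π.f' (P.ρB y q), t.ty (P.ρB y q), z) = (W.ρB y (π.f' q), t.ty q, z)
    rw [π.hB, t.tyB]
  hj := by
    rintro i ⟨q, z⟩
    show _ = (W2 c π t φA φB).j i (π.f q, t.tx q, z)
    rw [W2_j]
    have h1 := uA_main c π t (q, i)
    have h2 := vB_main c π t (q, i)
    have h3 := lA_main c π t (q, i)
    have h4 := lB_main c π t (q, i)
    simp only [Mor.e] at h1 h2 h3 h4
    rw [h1, h2, h3, h4, ← π.hj]
    rfl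

theorem morMain_inj : Function.Injective (morMain c π t φA φB).f := by
  rintro ⟨q, z⟩ ⟨q', z'⟩ h
  have h1 : π.f q = π.f q' := congrArg Prod.fst h
  have h2 : t.tx q = t.tx q' := congrArg (fun w => w.2.1) h
  have h3 : z = z' := congrArg (fun w => w.2.2) h
  have h4 := π.injA (e := (q', true)) (e' := (q, true)) (t.tx_inj _ _ h2) (Prod.ext h1 rfl)
  exact Prod.ext (Prod.ext_iff.1 h4).1 h3

/-- The abelian second level. -/
abbrev Z0 (P : Wall A B) : Type :=
  Multiplicative (P.X × Bool → ZMod 2) × Multiplicative (P.X × Bool → ZMod 3)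

noncomputable def W3 : Wall A B :=
  W2 c π t ((MulAction.toPermHom (Z0 P) (Z0 P)).comp (MonoidHom.inl _ _))
    ((MulAction.toPermHom (Z0 P) (Z0 P)).comp (MonoidHom.inr _ _))

theorem fix_nonmain (s : SG A B) (hs : s ∈ (W3 c π t).act.ker) (ξ : W.X) (τ : t.T) (z : Z)
    (hn : ¬Main π t ξ τ) : (W2 c π t φA φB).act s (ξ, τ, z) = (ξ, τ, z) := by
  have key : ∀ φ : Z0 P → Z, φ 1 = z →
      (∀ (i : Bool) (ξ : W.X) (τ : t.T) (w : Z0 P), ¬Main π t ξ τ →
        φ ((1, ofAdd (lB c π t (c.cB (ξ, i)) (uA c π t (c.cA (ξ, i)) τ))) *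
          ((ofAdd (lA c π t (c.cA (ξ, i)) τ), 1) * w)) =
        φB (ofAdd (lB c π t (c.cB (ξ, i)) (uA c π t (c.cA (ξ, i)) τ)))
          (φA (ofAdd (lA c π t (c.cA (ξ, i)) τ)) (φ w))) →
      (W2 c π t φA φB).act s (ξ, τ, z) = (ξ, τ, z) := by
    intro φ h1 h2
    have := (Wall.equivariant_on (W3 c π t) (W2 c π t φA φB)
      (fun w => ¬Main π t w.1 w.2.1) (fun w => ¬Main' π t w.1 w.2.1)
      (fun w => (w.1, w.2.1, φ w.2.2)) (fun w => (w.1, w.2.1, φ w.2.2))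
      (fun x ⟨ξ, τ, _⟩ => not_congr (main_A π t x ξ τ))
      (fun y ⟨η, τ, _⟩ => not_congr (main_B π t y η τ))
      (fun i ⟨ξ, τ, _⟩ => not_congr (main_j c π t i ξ τ))
      (fun _ _ _ => rfl) (fun _ _ _ => rfl)
      (fun i ⟨ξ, τ, w⟩ hw => by
        show _ = (W2 c π t φA φB).j i (ξ, τ, φ w)
        rw [W2_j, ← h2 i ξ τ w hw]
        rfl) s).2 (ξ, τ, 1) hn
    rw [MonoidHom.mem_ker.1 hs] at this
    rw [← h1]
    exact this.symm
  rcases c.alt with h | h
  · refine key (fun w => φB w.2 z) (by simp) fun i ξ τ w hw => ?_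
    rw [lA_nonmain c π t h i ξ τ hw]
    simp
  · refine key (fun w => φA w.1 z) (by simp) fun i ξ τ w hw => ?_
    rw [lB_nonmain c π t h i ξ τ hw]
    simp

end level

/-- Pull back of functions on edges. -/
def pull {E E' R : Type} [AddCommGroup R] (f : E' → E) :
    Multiplicative (E → R) →* Multiplicative (E' → R) where
  toFun w := ofAdd (w.toAdd ∘ f)
  map_one' := rfl
  map_mul' _ _ := rfl

/-- The deep regular wall embeds in the model. -/
noncomputable def morDeep {P Q : Wall A B} (ϖ : Mor Q P) (t : Tok Q) :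
    Mor Q (Wm (t.u.comp (pull ϖ.e)) (t.v.comp (pull ϖ.e))) where
  f := fun q => (ϖ.f q, t.tx q)
  f' := fun q => (ϖ.f' q, t.ty q)
  hA := by
    intro x q
    show _ = (P.ρA x (ϖ.f q), t.tx q)
    rw [ϖ.hA, t.txA]
  hB := by
    intro y q
    show _ = (P.ρB y (ϖ.f' q), t.ty q)
    rw [ϖ.hB, t.tyB]
  hj := by
    intro i q
    have h1 : t.u (ofAdd fun e' => ind _ (ϖ.e e' = (ϖ.f q, i))) (t.tx q) = t.m (q, i) :=
      t.hu (q, i) _ (ind_pos rfl) fun _ h hne => ind_neg fun h' => hne (ϖ.injA h h')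
    have h2 : t.v (ofAdd fun e' => ind _ (ϖ.e e' = (ϖ.f q, i))) (t.m (q, i)) = t.ty (Q.j i q) :=
      t.hv (q, i) _ (ind_pos rfl) fun _ h hne => ind_neg fun h' => hne (ϖ.injB h h')
    show _ = (P.j i (ϖ.f q), t.v (ofAdd fun e' => ind _ (ϖ.e e' = (ϖ.f q, i)))
      (t.u (ofAdd fun e' => ind _ (ϖ.e e' = (ϖ.f q, i))) (t.tx q)))
    rw [h1, h2, ϖ.hj]

theorem morDeep_inj {P Q : Wall A B} (ϖ : Mor Q P) (t : Tok Q) :
    Function.Injective (morDeep ϖ t).f := by
  intro q q' h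
  have h1 : ϖ.f q = ϖ.f q' := congrArg Prod.fst h
  have h2 : t.tx q = t.tx q' := congrArg Prod.snd h
  have h4 := ϖ.injA (e := (q', true)) (e' := (q, true)) (t.tx_inj _ _ h2) (Prod.ext h1 rfl)
  exact congrArg Prod.fst h4

end Pool.Agent.P.MP_5e147a_al.H16
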