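import Pool.Agent.P.MP_5e147a_al.H16.Base

set_option autoImplicit false

namespace Pool.Agent.P.MP_5e147a_al.H16

open Equiv

/-- A finite group with a `2`-subgroup and a `3`-subgroup. -/
structure Tri where
  G : Type
  grp : Group G
  fin : Finite G
  A : Subgroup G
  B : Subgroup G
  hA : IsPGroup 2 A
  hB : IsPGroup 3 B

instance (T : Tri) : Group T.G := T.grp
instance (T : Tri) : Finite T.G := T.fin

/-- An embedding of triples. -/
def Emb {T T' : Tri} (f : T.G →* T'.G) : Prop :=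
  Function.Injective f ∧ (∀ x ∈ T.A, f x ∈ T'.A) ∧ ∀ y ∈ T.B, f y ∈ T'.B

theorem step (T : Tri) (g : T.G) :
    ∃ (T' : Tri) (f : T.G →* T'.G), Emb f ∧ ∃ b ∈ T'.B, ∃ a ∈ T'.A, f g = b * a := by
  by_cases h : ∃ b ∈ T.B, ∃ a ∈ T.A, g = b * a
  · exact ⟨T, MonoidHom.id _, ⟨Function.injective_id, fun _ h => h, fun _ h => h⟩, h⟩
  have hgen : Gen T.A T.B g := by
    refine ⟨fun x y f hf => ?_, fun x y hg => h ⟨y, y.2, x, x.2, hg⟩⟩
    obtain ⟨m, hm⟩ := T.hA x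
    obtain ⟨n, hn⟩ := T.hB y
    have h1 : (x : T.G) = f⁻¹ * y * f⁻¹⁻¹ := by rw [inv_inv, mul_assoc, hf]; simp
    have h2 : x ^ 3 ^ n = 1 := by
      apply Subtype.ext
      have h3 : (y : T.G) ^ 3 ^ n = 1 := congrArg Subtype.val hn
      rw [Subgroup.coe_pow, h1, conj_pow, h3]
      simp
    have h4 : Nat.Coprime (2 ^ m) (3 ^ n) := Nat.Coprime.pow _ _ (by norm_num)
    rw [← orderOf_eq_one_iff]
    exact Nat.eq_one_of_dvd_coprimes h4 (orderOf_dvd_of_pow_eq_one hm)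
      (orderOf_dvd_of_pow_eq_one h2)
  obtain ⟨W, α, hα⟩ := exists_alpha T.hA T.hB g hgen
  obtain ⟨W', hW', ⟨β⟩⟩ := exists_beta (B := T.B) T.hA g
  obtain ⟨Ω, _, ρ, a, b, h1, h2, ⟨P, hP, h3, h4⟩, ⟨Q, hQ, h5, h6⟩⟩ := solve hgen α β
  exact ⟨⟨Perm Ω, inferInstance, inferInstance, P, Q, hP, hQ⟩, ρ,
    ⟨h1, fun x hx => h3 ⟨x, hx⟩, fun y hy => h5 ⟨y, hy⟩⟩, b, h6, a, h4, h2.symm⟩

theorem step_list (T : Tri) (l : List T.G) :
    ∃ (T' : Tri) (f : T.G →* T'.G), Emb f ∧ ∀ g ∈ l, ∃ b ∈ T'.B, ∃ a ∈ T'.A, f g = b * a := by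
  induction l with
  | nil => exact ⟨T, MonoidHom.id _, ⟨Function.injective_id, fun _ h => h, fun _ h => h⟩, by simp⟩
  | cons g l ih =>
    obtain ⟨T1, f1, ⟨h1, h2, h3⟩, h4⟩ := ih
    obtain ⟨T2, f2, ⟨h5, h6, h7⟩, h8⟩ := step T1 (f1 g)
    refine ⟨T2, f2.comp f1, ⟨h5.comp h1, fun x hx => h6 _ (h2 x hx), fun y hy => h7 _ (h3 y hy)⟩,
      fun g' hg' => ?_⟩
    rcases List.mem_cons.1 hg' with rfl | hg'
    · exact h8
    · obtain ⟨b, hb, a, ha, e⟩ := h4 g' hg'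
      exact ⟨f2 b, h7 b hb, f2 a, h6 a ha, by simp [e]⟩

theorem step_all (T : Tri) :
    ∃ (T' : Tri) (f : T.G →* T'.G), Emb f ∧ ∀ g, ∃ b ∈ T'.B, ∃ a ∈ T'.A, f g = b * a := by
  have := Fintype.ofFinite T.G
  obtain ⟨T', f, h1, h2⟩ := step_list T Finset.univ.toList
  exact ⟨T', f, h1, fun g => h2 g (by simp)⟩

theorem exists_counterexample : ∃ (G : Type) (_ : Group G) (P Q : Subgroup G) (c : G),
    (∀ s : Finset G, ((Subgroup.closure (s : Set G) : Subgroup G) : Set G).Finite) ∧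
    IsPGroup 3 P ∧ IsPGroup 2 Q ∧ (∀ g : G, ∃ a ∈ P, ∃ b ∈ Q, g = a * b) ∧ orderOf c = 5 := by
  classical
  choose nx fx hemb hall using step_all
  let T0 : Tri := ⟨Multiplicative (ZMod 5), inferInstance, inferInstance, ⊥, ⊥,
    IsPGroup.of_bot, IsPGroup.of_bot⟩
  obtain ⟨T, f, c, hc, hemb, hall⟩ : ∃ (T : ℕ → Tri) (f : ∀ n, (T n).G →* (T (n + 1)).G)
      (c : (T 0).G), orderOf c = 5 ∧ (∀ n, Emb (f n)) ∧
      ∀ n g, ∃ b ∈ (T (n + 1)).B, ∃ a ∈ (T (n + 1)).A, f n g = b * a :=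
    ⟨fun n => Nat.rec T0 (fun _ X => nx X) n, fun _ => fx _, Multiplicative.ofAdd (1 : ZMod 5),
      (orderOf_ofAdd_eq_addOrderOf (1 : ZMod 5)).trans (ZMod.addOrderOf_one 5),
      fun _ => hemb _, fun _ => hall _⟩
  let φ : ∀ i j : ℕ, i ≤ j → ((T i).G →* (T j).G) := fun i _ h =>
    Nat.leRec (motive := fun j _ => (T i).G →* (T j).G) (MonoidHom.id _)
      (fun k _ ψ => (f k).comp ψ) h
  have hself : ∀ i, φ i i le_rfl = MonoidHom.id _ := fun i => Nat.leRec_self _ _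
  have hsucc : ∀ i j (h : i ≤ j), φ i (j + 1) (Nat.le_succ_of_le h) = (f j).comp (φ i j h) :=
    fun i j h => Nat.leRec_succ _ _ h
  have hE : ∀ i j (h : i ≤ j), Emb (φ i j h) := by
    intro i j h
    induction j, h using Nat.le_induction with
    | base => rw [hself]; exact ⟨Function.injective_id, fun _ h => h, fun _ h => h⟩
    | succ j h ih =>
      rw [hsucc i j h]
      obtain ⟨h1, h2, h3⟩ := hemb j
      exact ⟨h1.comp ih.1, fun x hx => h2 _ (ih.2.1 x hx), fun y hy => h3 _ (ih.2.2 y hy)⟩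
  have : DirectedSystem (fun n => (T n).G) (fun i j h => φ i j h) := by
    constructor
    · intro i x
      rw [hself]
      rfl
    · intro k j i hij hjk x
      induction k, hjk using Nat.le_induction with
      | base => rw [hself]; rfl
      | succ k h ih =>
        rw [hsucc j k h, hsucc i k (hij.trans h)]
        exact congrArg (f k) ih
  let G := DirectLimit (fun n => (T n).G) φ
  let ι : ∀ n, (T n).G →* G := fun n =>
    { toFun := fun x => ⟦⟨n, x⟩⟧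
      map_one' := (DirectLimit.one_def n).symm
      map_mul' := fun x y => (DirectLimit.mul_def (G := fun n => (T n).G) (f := φ) n x y).symm }
  have hι : ∀ i j (h : i ≤ j) x, ι j (φ i j h x) = ι i x := fun i j h x =>
    DirectLimit.mk_apply (F := fun n => (T n).G) (f := φ) i j x h
  have hinj : ∀ n, Function.Injective (ι n) := fun n =>
    DirectLimit.mk_injective φ (fun i j h => (hE i j h).1) n
  have hsurj : ∀ z : G, ∃ n x, z = ι n x := fun z => DirectLimit.exists_eq_mk φ z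
  have sub : ∀ (p : ℕ) (H : ∀ n, Subgroup (T n).G), (∀ n, IsPGroup p (H n)) →
      (∀ i j (h : i ≤ j), ∀ x ∈ H i, φ i j h x ∈ H j) →
      ∃ P : Subgroup G, IsPGroup p P ∧ ∀ n, ∀ x ∈ H n, ι n x ∈ P := by
    intro p H h1 h2
    refine ⟨{ carrier := {z | ∃ n, ∃ x ∈ H n, z = ι n x}
              one_mem' := ⟨0, 1, (H 0).one_mem, (map_one _).symm⟩
              mul_mem' := ?_
              inv_mem' := ?_ }, ?_, fun n x hx => ⟨n, x, hx, rfl⟩⟩
    · rintro _ _ ⟨i, x, hx, rfl⟩ ⟨j, y, hy, rfl⟩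
      refine ⟨max i j, _, (H _).mul_mem (h2 i _ (le_max_left i j) x hx)
        (h2 j _ (le_max_right i j) y hy), ?_⟩
      rw [map_mul, hι, hι]
    · rintro _ ⟨i, x, hx, rfl⟩
      exact ⟨i, x⁻¹, (H i).inv_mem hx, (map_inv _ _).symm⟩
    · rintro ⟨_, i, x, hx, rfl⟩
      obtain ⟨k, hk⟩ := h1 i ⟨x, hx⟩
      refine ⟨k, Subtype.ext ?_⟩
      have hk' : x ^ p ^ k = 1 := congrArg Subtype.val hk
      show ι i x ^ p ^ k = 1
      rw [← map_pow, hk', map_one]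
  obtain ⟨P, hP, hP'⟩ := sub 3 (fun n => (T n).B) (fun n => (T n).hB) fun i j h => (hE i j h).2.2
  obtain ⟨Q, hQ, hQ'⟩ := sub 2 (fun n => (T n).A) (fun n => (T n).hA) fun i j h => (hE i j h).2.1
  refine ⟨G, inferInstance, P, Q, ι 0 c, ?_, hP, hQ, ?_, ?_⟩
  · intro s
    have h1 : ∃ n, (s : Set G) ⊆ (ι n).range := by
      induction s using Finset.induction_on with
      | empty => exact ⟨0, by simp⟩
      | insert z s _ ih =>
        obtain ⟨n, hn⟩ := ih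
        obtain ⟨m, x, rfl⟩ := hsurj z
        refine ⟨max m n, ?_⟩
        rw [Finset.coe_insert]
        refine Set.insert_subset ⟨_, hι m _ (le_max_left m n) x⟩ fun w hw => ?_
        obtain ⟨y, rfl⟩ := hn hw
        exact ⟨_, hι n _ (le_max_right m n) y⟩
    obtain ⟨n, hn⟩ := h1
    exact (Set.finite_range (ι n)).subset ((Subgroup.closure_le _).2 hn)
  · intro z
    obtain ⟨n, x, rfl⟩ := hsurj z
    obtain ⟨b, hb, a, ha, e⟩ := hall n x
    refine ⟨ι (n + 1) b, hP' _ b hb, ι (n + 1) a, hQ' _ a ha, ?_⟩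
    rw [← hι n (n + 1) (Nat.le_succ_of_le le_rfl), hsucc n n le_rfl, hself, ← map_mul]
    exact congrArg (ι (n + 1)) e
  · rw [orderOf_injective (ι 0) (hinj 0), hc]

end Pool.Agent.P.MP_5e147a_al.H16
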