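import Pool.Agent.P.MP_5e147a_al.H16.Equal

set_option autoImplicit false

namespace Pool.Agent.P.MP_5e147a_al.H16

open Equiv Sum

variable {F : Type} [Group F] {A B : Subgroup F}

/-- The side carrying the `3`-group. -/
structure Alpha (g : F) (W : Wall A B) where
  Mt : Type
  fin : Finite Mt
  ρF : F →* Perm (Mt ⊕ W.X)
  free : ∀ f ω, ρF f ω = ω → f = 1
  ρM : A → Perm Mt
  hM : ∀ (x : A) τ, ρF x (inl τ) = inl (ρM x τ)
  hX : ∀ (x : A) ξ, ρF x (inr ξ) = inr (W.ρA x ξ)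
  aM : Perm Mt
  pM : PG 2 ρM aM
  b : Perm ((Mt ⊕ W.X) ⊕ W.Y)
  b1 : ∀ τ, b (inl (inl (aM τ))) = inl (ρF g (inl τ))
  b2 : ∀ ξ, b (inl (inr ξ)) = inr (W.j false ξ)
  b3 : ∀ ξ, b (inr (W.j true ξ)) = inl (ρF g (inr ξ))
  pQ : PG 3 (fun y : B => Perm.sumCongr (ρF y) (W.ρB y)) b

/-- The side carrying the `2`-group. -/
structure Beta (g : F) (W : Wall A B) where
  ρF : F →* Perm W.Y
  free : ∀ f ω, ρF f ω = ω → f = 1
  hY : ∀ (y : B) η, ρF y η = W.ρB y η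
  a : Perm (W.X ⊕ W.Y)
  a1 : ∀ ξ, a (inl ξ) = inr (W.j true ξ)
  a2 : ∀ ξ η, W.j false ξ = ρF g η → a (inr η) = inl ξ
  pP : PG 2 (fun x : A => Perm.sumCongr (W.ρA x) (ρF x)) a

theorem glue {g : F} {W : Wall A B} (α : Alpha g W) (β : Beta g W) [Nonempty α.Mt] :
    ∃ (Ω : Type) (_ : Finite Ω) (ρ : F →* Perm Ω) (a b : Perm Ω), Function.Injective ρ ∧
      b * a = ρ g ∧ PG 2 (fun x : A => ρ x) a ∧ PG 3 (fun y : B => ρ y) b := by
  have := α.fin
  let e := Equiv.sumAssoc α.Mt W.X W.Y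
  refine ⟨(α.Mt ⊕ W.X) ⊕ W.Y, inferInstance, (Perm.sumCongrHom _ _).comp (α.ρF.prod β.ρF),
    e.symm.permCongr (Perm.sumCongr α.aM β.a), α.b, ?_, ?_, ?_, ?_⟩
  · rw [injective_iff_map_eq_one]
    intro f hf
    have h := congrArg (fun π : Perm ((α.Mt ⊕ W.X) ⊕ W.Y) =>
      π (inl (inl (Classical.arbitrary α.Mt)))) hf
    exact α.free f _ (inl.inj h)
  · ext1 z
    rcases z with (τ | ξ) | η
    · exact α.b1 τ
    · show α.b (e.symm (inr (β.a (inl ξ)))) = inl (α.ρF g (inr ξ))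
      rw [β.a1]
      exact α.b3 ξ
    · show α.b (e.symm (inr (β.a (inr η)))) = inr (β.ρF g η)
      obtain ⟨ξ, hξ⟩ := (W.j false).surjective (β.ρF g η)
      rw [β.a2 ξ η hξ, ← hξ]
      exact α.b2 ξ
  · refine (α.pM.sum β.pP).of_equiv e ?_ ?_
    · intro x z
      rcases z with (τ | ξ) | η
      · show e (inl (α.ρF x (inl τ))) = _
        rw [α.hM]
        rfl
      · show e (inl (α.ρF x (inr ξ))) = _
        rw [α.hX]
        rfl
      · rfl
    · intro z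
      simp
  · refine α.pQ.of_equiv (Equiv.refl _) ?_ (fun _ => rfl)
    intro y z
    rcases z with ω | η
    · rfl
    · exact congrArg inr (β.hY y η)

/-- Transport along an isomorphism of walls. -/
theorem Beta.transport {g : F} {W W' : Wall A B} (β : Beta g W') (ψ : W.X ≃ W'.X)
    (hψ : ∀ s ξ, ψ (W.act s ξ) = W'.act s (ψ ξ)) : Nonempty (Beta g W) := by
  let ψ' : W.Y ≃ W'.Y := ((W.j true).symm.trans ψ).trans (W'.j true)
  have hA : ∀ x ξ, ψ (W.ρA x ξ) = W'.ρA x (ψ ξ) := fun x ξ => hψ (sA x) ξ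
  have hj : ∀ i ξ, ψ' (W.j i ξ) = W'.j i (ψ ξ) := by
    intro i ξ
    cases i
    · have := hψ sT ξ
      rw [Wall.act_sT, Wall.act_sT] at this
      show W'.j true (ψ ((W.j true).symm (W.j false ξ))) = _
      rw [this]
      simp
    · simp [ψ']
  have hB : ∀ y η, ψ' (W.ρB y η) = W'.ρB y (ψ' η) := by
    intro y η
    obtain ⟨ξ, rfl⟩ := (W.j true).surjective η
    have := hψ (sB y) ξ
    rw [Wall.act_sB, Wall.act_sB] at this
    rw [hj]
    show W'.j true (ψ ((W.j true).symm (W.ρB y (W.j true ξ)))) = _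
    rw [this]
    simp
  refine ⟨⟨ψ'.symm.permCongrHom.toMonoidHom.comp β.ρF, ?_, ?_,
    (Equiv.sumCongr ψ ψ').symm.permCongr β.a, ?_, ?_, ?_⟩⟩
  · intro f ω h
    apply β.free f (ψ' ω)
    have h' : ψ'.symm (β.ρF f (ψ' ω)) = ω := h
    rwa [Equiv.symm_apply_eq] at h'
  · intro y η
    show ψ'.symm (β.ρF y (ψ' η)) = _
    rw [Equiv.symm_apply_eq, β.hY, hB]
  · intro ξ
    show (Equiv.sumCongr ψ ψ').symm (β.a (inl (ψ ξ))) = _
    rw [Equiv.symm_apply_eq, β.a1, ← hj]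
    rfl
  · intro ξ η h
    have h' : W.j false ξ = ψ'.symm (β.ρF g (ψ' η)) := h
    rw [Equiv.eq_symm_apply, hj] at h'
    show (Equiv.sumCongr ψ ψ').symm (β.a (inr (ψ' η))) = _
    rw [Equiv.symm_apply_eq, β.a2 _ _ h']
    rfl
  · refine β.pP.of_equiv (Equiv.sumCongr ψ ψ') ?_ ?_
    · intro x z
      rcases z with ξ | η
      · exact congrArg inl (hA x ξ)
      · show inr (ψ' (ψ'.symm (β.ρF x (ψ' η)))) = inr (β.ρF x (ψ' η))
        simp
    · intro z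
      simp

/-- The orbit of a point under a subgroup. -/
def orb {Z : Type} (ρ : F →* Perm Z) (H : Subgroup F) (z : Z) : Set Z :=
  Set.range fun y : H => ρ y z

theorem orb_iff {Z : Type} (ρ : F →* Perm Z) (H : Subgroup F) (z z' : Z) :
    orb ρ H z' = orb ρ H z ↔ ∃ y : H, z' = ρ y z :=
  orb_eq (ρ.comp H.subtype) z z'

theorem orb_smul {Z : Type} (ρ : F →* Perm Z) (H : Subgroup F) (y : H) (z : Z) :
    orb ρ H (ρ y z) = orb ρ H z := (orb_iff ρ H _ _).2 ⟨y, rfl⟩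

theorem free_eq {Z : Type} {ρ : F →* Perm Z} (h : ∀ f ω, ρ f ω = ω → f = 1) {f f' : F} {ω : Z}
    (e : ρ f ω = ρ f' ω) : f = f' := by
  have := h (f'⁻¹ * f) ω (by simp [e])
  rwa [inv_mul_eq_one, eq_comm] at this

/-- The hypotheses on `g`. -/
structure Gen (A B : Subgroup F) (g : F) : Prop where
  h1 : ∀ (x : A) (y : B) (f : F), (y : F) * f = f * x → x = 1
  h2 : ∀ (x : A) (y : B), g ≠ y * x

def Alpha.cls {g : F} {W : Wall A B} (α : Alpha g W) (h : Gen A B g) : Cls W where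
  CA := Set (α.Mt ⊕ W.X)
  CB := W.X × Bool
  cA e := orb α.ρF B (cond e.2 (α.ρF g (inr e.1)) (inr e.1))
  cB := id
  injA := by
    rintro ⟨ξ, i⟩ ⟨ξ', i'⟩ ⟨x, hx⟩ hc
    obtain ⟨y, hy⟩ := (orb_iff _ _ _ _).1 hc
    dsimp only at hx
    subst hx
    cases i <;> cases i' <;> simp only [cond_true, cond_false, ← α.hX] at hy
    · have := h.h1 x y 1 (by rw [free_eq α.free hy]; simp)
      subst this
      simp
    · exfalso
      rw [← Perm.mul_apply, ← map_mul] at hy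
      exact h.h2 x⁻¹ y (by rw [← free_eq α.free hy]; simp)
    · exfalso
      rw [← Perm.mul_apply, ← map_mul] at hy
      exact h.h2 x y⁻¹ (by rw [free_eq α.free hy]; simp)
    · rw [← Perm.mul_apply, ← map_mul, ← Perm.mul_apply, ← map_mul] at hy
      have := h.h1 x y g (free_eq α.free hy).symm
      subst this
      simp
  injB := fun _ _ _ h => h
  alt := Or.inr Function.injective_id

def Beta.cls {g : F} {W : Wall A B} (β : Beta g W) (h : Gen A B g) : Cls W where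
  CA := W.X × Bool
  CB := Set W.Y
  cA := id
  cB e := orb β.ρF A (cond e.2 (W.j true e.1) (β.ρF g⁻¹ (W.j false e.1)))
  injA := fun _ _ _ h => h
  injB := by
    rintro ⟨ξ, i⟩ ⟨ξ', i'⟩ ⟨y, hy⟩ hc
    obtain ⟨x, hx⟩ := (orb_iff _ _ _ _).1 hc
    dsimp only at hy
    rw [← β.hY] at hy
    cases i <;> cases i' <;> simp only [cond_true, cond_false] at hx <;> rw [hy] at hx
    · rw [← Perm.mul_apply, ← map_mul, ← Perm.mul_apply, ← map_mul] at hx
      have e := free_eq β.free hx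
      have h3 := h.h1 x y g (by rw [inv_mul_eq_iff_eq_mul] at e; rw [e]; group)
      subst h3
      have h4 : (y : F) = 1 := by simpa using e
      rw [h4] at hy
      exact Prod.ext ((W.j false).injective (by simpa using hy)) rfl
    · exfalso
      rw [← Perm.mul_apply, ← map_mul] at hx
      exact h.h2 x y⁻¹ (by rw [Subgroup.coe_inv, free_eq β.free hx]; simp)
    · exfalso
      rw [← Perm.mul_apply, ← map_mul] at hx
      exact h.h2 x⁻¹ y (by rw [Subgroup.coe_inv, ← free_eq β.free hx]; simp)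
    · have e := free_eq β.free hx
      have h3 := h.h1 x y 1 (by rw [e]; simp)
      subst h3
      have h4 : (y : F) = 1 := by simpa using e
      rw [h4] at hy
      exact Prod.ext ((W.j true).injective (by simpa using hy)) rfl
  alt := Or.inl Function.injective_id

theorem Alpha.lift {g : F} {W : Wall A B} (α : Alpha g W) (h : Gen A B g)
    (L : LiftData (α.cls h)) : ∃ α' : Alpha g L.wall, α'.Mt = (α.Mt × L.G) := by
  have : Fact (Nat.Prime 3) := ⟨Nat.prime_three⟩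
  have := α.fin
  let e0 : (α.Mt × L.G) ⊕ (W.X × L.G) ≃ (α.Mt ⊕ W.X) × L.G := (Equiv.sumProdDistrib _ _ _).symm
  let lam : α.Mt ⊕ W.X → Perm L.G := fun ω => L.νA (orb α.ρF B ω)
  let Θ : ((α.Mt × L.G) ⊕ (W.X × L.G)) ⊕ (W.Y × L.G) ≃ ((α.Mt ⊕ W.X) ⊕ W.Y) × L.G :=
    (Equiv.sumCongr (e0.trans (Equiv.prodShear (Equiv.refl _) lam)) (Equiv.refl _)).trans
      (Equiv.sumProdDistrib _ _ _).symm
  have hΘ1 : ∀ ω f, Θ (inl (e0.symm (ω, f))) = (inl ω, lam ω f) := by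
    intro ω f
    rcases ω with τ | ξ <;> rfl
  have hΘ2 : ∀ η f, Θ (inr (η, f)) = (inr η, f) := fun _ _ => rfl
  let d : (α.Mt ⊕ W.X) ⊕ W.Y → Perm L.G := Sum.elim (Sum.elim (fun _ => 1)
    fun ξ => L.νB (ξ, false)) fun η => (L.νB ((W.j true).symm η, true))⁻¹
  have hd : ∀ z, d z ∈ L.DB := by
    rintro ((τ | ξ) | η)
    · exact L.DB.one_mem
    · exact L.hνB _
    · exact L.DB.inv_mem (L.hνB _)
  let ρ' : F →* Perm ((α.Mt × L.G) ⊕ (W.X × L.G)) :=
    e0.symm.permCongrHom.toMonoidHom.comp (fstHom α.ρF L.G)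
  have hρ' : ∀ f0 ω f, ρ' f0 (e0.symm (ω, f)) = e0.symm (α.ρF f0 ω, f) := by
    intro f0 ω f
    show e0.symm (fstHom α.ρF L.G f0 (e0 (e0.symm (ω, f)))) = _
    rw [Equiv.apply_symm_apply]
    rfl
  let b' : Perm (((α.Mt × L.G) ⊕ (W.X × L.G)) ⊕ (W.Y × L.G)) :=
    Θ.symm.permCongr (Equiv.prodShear α.b d)
  have hb' : ∀ z w, Equiv.prodShear α.b d (Θ z) = Θ w → b' z = w := by
    intro z w hw
    show Θ.symm (Equiv.prodShear α.b d (Θ z)) = w
    rw [hw, Equiv.symm_apply_apply]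
  refine ⟨⟨α.Mt × L.G, inferInstance, ρ', ?_,
    fun x => Equiv.prodCongr (α.ρM x) (Equiv.refl _), ?_, ?_,
    Equiv.prodShear α.aM fun τ => (lam (inl (α.aM τ)))⁻¹ * lam (α.ρF g (inl τ)), ?_,
    b', ?_, ?_, ?_, ?_⟩, rfl⟩
  · intro f0 z hz
    obtain ⟨⟨ω, f⟩, rfl⟩ := e0.symm.surjective z
    exact α.free f0 ω (Prod.ext_iff.1 (e0.symm.injective ((hρ' f0 ω f).symm.trans hz))).1
  · rintro x ⟨τ, f⟩
    refine (hρ' x (inl τ) f).trans ?_
    rw [α.hM]
    rfl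
  · rintro x ⟨ξ, f⟩
    refine (hρ' x (inr ξ) f).trans ?_
    rw [α.hX]
    rfl
  · exact α.pM.skew L.hDA (fun _ _ _ => rfl)
      (fun τ => (lam (inl (α.aM τ)))⁻¹ * lam (α.ρF g (inl τ)))
      (fun τ => L.DA.mul_mem (L.DA.inv_mem (L.hνA _)) (L.hνA _)) (fun _ _ => rfl)
  · rintro ⟨τ, f⟩
    apply hb'
    refine Eq.trans ?_ ((congrArg (fun w => Θ (inl w)) (hρ' g (inl τ) f)).trans (hΘ1 _ _)).symm
    show (α.b (inl (inl (α.aM τ))), lam (inl (α.aM τ))
      ((lam (inl (α.aM τ)))⁻¹ (lam (α.ρF g (inl τ)) f))) = _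
    rw [α.b1]
    simp
  · rintro ⟨ξ, f⟩
    apply hb'
    show (α.b (inl (inr ξ)), L.νB (ξ, false) (lam (inr ξ) f)) = _
    rw [α.b2]
    rfl
  · rintro ⟨ξ, f⟩
    apply hb'
    refine Eq.trans ?_ ((congrArg (fun w => Θ (inl w)) (hρ' g (inr ξ) f)).trans (hΘ1 _ _)).symm
    show (α.b (inr (W.j true ξ)), (L.νB ((W.j true).symm (W.j true ξ), true))⁻¹
      (L.νB (ξ, true) (lam (α.ρF g (inr ξ)) f))) = _
    rw [α.b3]
    simp
  · refine PG.of_equiv (α.pQ.skew L.hDB (ρ' := fun y : B => Equiv.prodCongr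
      (Perm.sumCongr (α.ρF y) (W.ρB y)) (Equiv.refl L.G)) (a' := Equiv.prodShear α.b d)
      (fun _ _ _ => rfl) d hd (fun _ _ => rfl)) Θ ?_ ?_
    · rintro y (z | ⟨η, f⟩)
      · obtain ⟨⟨ω, f⟩, rfl⟩ := e0.symm.surjective z
        refine ((congrArg (fun w => Θ (inl w)) (hρ' y ω f)).trans (hΘ1 _ _)).trans ?_
        refine Eq.trans ?_ (congrArg _ (hΘ1 ω f)).symm
        show (inl (α.ρF y ω), L.νA (orb α.ρF B (α.ρF y ω)) f) = _
        rw [orb_smul]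
        rfl
      · rfl
    · intro z
      exact Θ.apply_symm_apply _

theorem Beta.lift {g : F} {W : Wall A B} (β : Beta g W) (h : Gen A B g)
    (L : LiftData (β.cls h)) : Nonempty (Beta g L.wall) := by
  let lam : W.Y → Perm L.G := fun ω => L.νB (orb β.ρF A ω)
  let Θ : (W.X × L.G) ⊕ (W.Y × L.G) ≃ (W.X ⊕ W.Y) × L.G :=
    (Equiv.sumCongr (Equiv.refl _) (Equiv.prodShear (Equiv.refl _) fun η => (lam η)⁻¹)).trans
      (Equiv.sumProdDistrib _ _ _).symm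
  let d : W.X ⊕ W.Y → Perm L.G := Sum.elim (fun ξ => L.νA (ξ, true))
    fun η => (L.νA ((W.j false).symm (β.ρF g η), false))⁻¹
  have hd : ∀ z, d z ∈ L.DA := by
    rintro (ξ | η)
    · exact L.hνA _
    · exact L.DA.inv_mem (L.hνA _)
  let a' : Perm ((W.X × L.G) ⊕ (W.Y × L.G)) := Θ.symm.permCongr (Equiv.prodShear β.a d)
  have ha' : ∀ z w, Equiv.prodShear β.a d (Θ z) = Θ w → a' z = w := by
    intro z w hw
    show Θ.symm (Equiv.prodShear β.a d (Θ z)) = w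
    rw [hw, Equiv.symm_apply_apply]
  refine ⟨⟨fstHom β.ρF L.G, ?_, ?_, a', ?_, ?_, ?_⟩⟩
  · rintro f0 ⟨η, f⟩ hz
    exact β.free f0 η (Prod.ext_iff.1 hz).1
  · rintro y ⟨η, f⟩
    exact Prod.ext (β.hY y η) rfl
  · rintro ⟨ξ, f⟩
    apply ha'
    show (β.a (inl ξ), L.νA (ξ, true) f) =
      (inr (W.j true ξ), (lam (W.j true ξ))⁻¹ (lam (W.j true ξ) (L.νA (ξ, true) f)))
    rw [β.a1]
    simp
  · rintro ⟨ξ, f⟩ ⟨η, f'⟩ hz
    have h1 : W.j false ξ = β.ρF g η := (Prod.ext_iff.1 hz).1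
    have h2 : lam (β.ρF g⁻¹ (W.j false ξ)) (L.νA (ξ, false) f) = f' := (Prod.ext_iff.1 hz).2
    apply ha'
    show (β.a (inr η), (L.νA ((W.j false).symm (β.ρF g η), false))⁻¹ ((lam η)⁻¹ f')) = (inl ξ, f)
    rw [β.a2 ξ η h1, ← h2, h1, ← h1, Equiv.symm_apply_apply, h1]
    simp
  · refine PG.of_equiv (β.pP.skew L.hDA (ρ' := fun x : A => Equiv.prodCongr
      (Perm.sumCongr (W.ρA x) (β.ρF x)) (Equiv.refl L.G)) (a' := Equiv.prodShear β.a d)
      (fun _ _ _ => rfl) d hd (fun _ _ => rfl)) Θ ?_ ?_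
    · rintro x (⟨ξ, f⟩ | ⟨η, f⟩)
      · rfl
      · show (inr (β.ρF x η), (L.νB (orb β.ρF A (β.ρF x η)))⁻¹ f) = _
        rw [orb_smul]
        rfl
    · intro z
      exact Θ.apply_symm_apply _

theorem solve {g : F} (h : Gen A B g) {W W' : Wall A B} (α : Alpha g W) (β : Beta g W')
    [Nonempty α.Mt] [Nonempty W'.X] :
    ∃ (Ω : Type) (_ : Finite Ω) (ρ : F →* Perm Ω) (a b : Perm Ω), Function.Injective ρ ∧
      b * a = ρ g ∧ PG 2 (fun x : A => ρ x) a ∧ PG 3 (fun y : B => ρ y) b := by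
  obtain ⟨L, L', ψ, hne, hψ⟩ := equalize W W' (α.cls h) (β.cls h)
  obtain ⟨α', hα'⟩ := α.lift h L
  obtain ⟨β'⟩ := β.lift h L'
  obtain ⟨β''⟩ := β'.transport ψ hψ
  have : Nonempty α'.Mt := by rw [hα']; infer_instance
  exact glue α' β''

end Pool.Agent.P.MP_5e147a_al.H16
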