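import Mathlib

set_option autoImplicit false

namespace Pool.Agent.P.MP_5e147a_al.H16

open Equiv

/-- Skew products of a permutation group `K` with fibre group `D`. -/
def Sk {Z Fb : Type} (K : Subgroup (Perm Z)) (D : Subgroup (Perm Fb)) :
    Subgroup (Perm (Z × Fb)) where
  carrier := {π | ∃ k ∈ K, ∃ d : Z → Perm Fb, (∀ z, d z ∈ D) ∧ ∀ z f, π (z, f) = (k z, d z f)}
  one_mem' := ⟨1, K.one_mem, fun _ => 1, fun _ => D.one_mem, fun _ _ => rfl⟩
  mul_mem' := by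
    rintro π π' ⟨k, hk, d, hd, h⟩ ⟨k', hk', d', hd', h'⟩
    refine ⟨k * k', K.mul_mem hk hk', fun z => d (k' z) * d' z,
      fun z => D.mul_mem (hd _) (hd' _), fun z f => ?_⟩
    simp [h, h']
  inv_mem' := by
    rintro π ⟨k, hk, d, hd, h⟩
    refine ⟨k⁻¹, K.inv_mem hk, fun z => (d (k⁻¹ z))⁻¹, fun z => D.inv_mem (hd _), fun z f => ?_⟩
    rw [Perm.inv_eq_iff_eq, h]
    simp

theorem shear_mem_Sk {Z Fb : Type} {K : Subgroup (Perm Z)} {D : Subgroup (Perm Fb)}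
    {k : Perm Z} (hk : k ∈ K) {d : Z → Perm Fb} (hd : ∀ z, d z ∈ D) :
    (Equiv.prodShear k d : Perm (Z × Fb)) ∈ Sk K D :=
  ⟨k, hk, d, hd, fun _ _ => rfl⟩

theorem isPGroup_Sk {p : ℕ} [Fact p.Prime] {Z Fb : Type} [Finite Fb] {K : Subgroup (Perm Z)}
    {D : Subgroup (Perm Fb)} (hK : IsPGroup p K) (hD : IsPGroup p D) :
    IsPGroup p (Sk K D) := by
  obtain ⟨m, hm⟩ := IsPGroup.iff_card.1 hD
  have hexp : ∀ d ∈ D, d ^ p ^ m = 1 := by
    intro d hd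
    have := pow_card_eq_one' (x := (⟨d, hd⟩ : D))
    rw [hm] at this
    exact congrArg Subtype.val this
  rintro ⟨π, k, hk, d, hd, h⟩
  obtain ⟨n, hn⟩ := hK ⟨k, hk⟩
  have hn' : k ^ p ^ n = 1 := congrArg Subtype.val hn
  have h1 : ∀ i : ℕ, ∃ d' : Z → Perm Fb, (∀ z, d' z ∈ D) ∧
      ∀ z f, (π ^ i) (z, f) = ((k ^ i) z, d' z f) := by
    intro i
    induction i with
    | zero => exact ⟨fun _ => 1, fun _ => D.one_mem, fun _ _ => rfl⟩
    | succ i ih =>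
      obtain ⟨d', hd', h'⟩ := ih
      refine ⟨fun z => d ((k ^ i) z) * d' z, fun z => D.mul_mem (hd _) (hd' _), fun z f => ?_⟩
      rw [pow_succ', pow_succ']
      simp [h, h']
  obtain ⟨d', hd', h'⟩ := h1 (p ^ n)
  have h2 : ∀ i : ℕ, ∀ z f, ((π ^ p ^ n) ^ i) (z, f) = (z, (d' z ^ i) f) := by
    intro i
    induction i with
    | zero => intro z f; rfl
    | succ i ih =>
      intro z f
      rw [pow_succ', pow_succ']
      simp [ih, h', hn']
  refine ⟨n + m, Subtype.ext ?_⟩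
  ext1 ⟨z, f⟩
  show (π ^ p ^ (n + m)) (z, f) = (z, f)
  rw [pow_add, pow_mul, h2, hexp _ (hd' z)]
  rfl

/-- The permutations `ρ x` together with `a` lie in a `p`-group. -/
def PG (p : ℕ) {A Z : Type} (ρ : A → Perm Z) (a : Perm Z) : Prop :=
  ∃ K : Subgroup (Perm Z), IsPGroup p K ∧ (∀ x, ρ x ∈ K) ∧ a ∈ K

theorem PG.of_equiv {p : ℕ} {A Z Z' : Type} {ρ : A → Perm Z} {a : Perm Z} {ρ' : A → Perm Z'}
    {a' : Perm Z'} (h : PG p ρ' a') (e : Z ≃ Z') (h1 : ∀ x z, e (ρ x z) = ρ' x (e z))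
    (h2 : ∀ z, e (a z) = a' (e z)) : PG p ρ a := by
  obtain ⟨K, hK, hρ, ha⟩ := h
  refine ⟨K.map (e.symm.permCongrHom.toMonoidHom), hK.map _, fun x => ⟨ρ' x, hρ x, ?_⟩,
    ⟨a', ha, ?_⟩⟩
  · ext z
    simp [← h1]
  · ext z
    simp [← h2]

theorem PG.skew {p : ℕ} [Fact p.Prime] {A Z Fb : Type} [Finite Fb] {ρ : A → Perm Z} {a : Perm Z}
    (h : PG p ρ a) {D : Subgroup (Perm Fb)} (hD : IsPGroup p D) {ρ' : A → Perm (Z × Fb)}
    {a' : Perm (Z × Fb)} (h1 : ∀ x z f, ρ' x (z, f) = (ρ x z, f))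
    (d : Z → Perm Fb) (hd : ∀ z, d z ∈ D) (h2 : ∀ z f, a' (z, f) = (a z, d z f)) :
    PG p ρ' a' := by
  obtain ⟨K, hK, hρ, ha⟩ := h
  exact ⟨Sk K D, isPGroup_Sk hK hD, fun x => ⟨ρ x, hρ x, fun _ => 1, fun _ => D.one_mem, h1 x⟩,
    ⟨a, ha, d, hd, h2⟩⟩

theorem PG.sum {p : ℕ} {A Z Z' : Type} {ρ : A → Perm Z} {a : Perm Z} {ρ' : A → Perm Z'}
    {a' : Perm Z'} (h : PG p ρ a) (h' : PG p ρ' a') :
    PG p (fun x => Perm.sumCongr (ρ x) (ρ' x)) (Perm.sumCongr a a') := by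
  obtain ⟨K, hK, hρ, ha⟩ := h
  obtain ⟨K', hK', hρ', ha'⟩ := h'
  have hp : IsPGroup p (K.prod K') := by
    rintro ⟨⟨k, k'⟩, hk, hk'⟩
    obtain ⟨n, hn⟩ := hK ⟨k, hk⟩
    obtain ⟨n', hn'⟩ := hK' ⟨k', hk'⟩
    have e1 : k ^ p ^ n = 1 := congrArg Subtype.val hn
    have e2 : k' ^ p ^ n' = 1 := congrArg Subtype.val hn'
    refine ⟨n + n', Subtype.ext (Prod.ext ?_ ?_)⟩
    · show k ^ p ^ (n + n') = 1
      rw [pow_add, pow_mul, e1, one_pow]
    · show k' ^ p ^ (n + n') = 1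
      rw [add_comm, pow_add, pow_mul, e2, one_pow]
  exact ⟨(K.prod K').map (Perm.sumCongrHom Z Z'), hp.map _,
    fun x => ⟨(ρ x, ρ' x), ⟨hρ x, hρ' x⟩, rfl⟩, ⟨(a, a'), ⟨ha, ha'⟩, rfl⟩⟩

theorem isPGroup_range {p : ℕ} {E G : Type} [Group G] (u : Multiplicative (E → ZMod p) →* G) :
    IsPGroup p u.range := by
  rintro ⟨_, w, rfl⟩
  refine ⟨1, Subtype.ext ?_⟩
  show u w ^ p ^ 1 = 1
  rw [← map_pow, pow_one]
  have : w ^ p = 1 := by
    apply Multiplicative.toAdd.injective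
    ext e
    simp
  rw [this, map_one]

/-- Matching of two finite sets on which all stabilisers equal the same subgroup. -/
theorem exists_matching {S X Y ι : Type} [Group S] [Finite X] [Finite Y] (Ξ : Subgroup S)
    (ρ : S →* Perm X) (σ : S →* Perm Y) (hρ : ∀ s x, ρ s x = x ↔ s ∈ Ξ)
    (hσ : ∀ s y, σ s y = y ↔ s ∈ Ξ) (hc : Nat.card X = Nat.card Y)
    (p : ι → X) (q : ι → Y) (hp : ∀ i i' s, p i' = ρ s (p i) → i = i')
    (hq : ∀ i i' s, q i' = σ s (q i) → i = i') :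
    ∃ ψ : X ≃ Y, (∀ s x, ψ (ρ s x) = σ s (ψ x)) ∧ ∀ i, ψ (p i) = q i := by
  classical
  -- a normal form for such a set
  have key : ∀ (X : Type) [Finite X] (ρ : S →* Perm X) (_ : ∀ s x, ρ s x = x ↔ s ∈ Ξ)
      (p : ι → X) (_ : ∀ i i' s, p i' = ρ s (p i) → i = i'),
      ∃ (O : Type) (_ : Finite O) (r : O → X) (o : ι → O), Function.Injective o ∧
        (∀ i, r (o i) = p i) ∧ (∀ x, ∃ c s, x = ρ s (r c)) ∧
        (∀ c c' s, r c' = ρ s (r c) → c = c') := by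
    intro X _ ρ _ p hp
    let st : Setoid X := ⟨fun x x' => ∃ s, x' = ρ s x, ⟨fun x => ⟨1, by simp⟩,
      fun ⟨s, h⟩ => ⟨s⁻¹, by simp [h]⟩, fun ⟨s, h⟩ ⟨s', h'⟩ => ⟨s' * s, by simp [h, h']⟩⟩⟩
    have hr : ∀ c : Quotient st, ∃ x : X, Quotient.mk st x = c ∧
        ∀ i, Quotient.mk st (p i) = c → x = p i := by
      intro c
      by_cases h : ∃ i, Quotient.mk st (p i) = c
      · obtain ⟨i, hi⟩ := h
        refine ⟨p i, hi, fun i' hi' => ?_⟩
        obtain ⟨s, hs⟩ := Quotient.exact (hi.trans hi'.symm)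
        rw [hp _ _ _ hs]
      · exact ⟨c.out, c.out_eq, fun i hi => absurd ⟨i, hi⟩ h⟩
    choose r hr1 hr2 using hr
    refine ⟨Quotient st, inferInstance, r, fun i => Quotient.mk st (p i), ?_, ?_, ?_, ?_⟩
    · intro i i' h
      obtain ⟨s, hs⟩ := Quotient.exact h
      exact hp _ _ _ hs
    · intro i
      exact hr2 _ i rfl
    · intro x
      obtain ⟨s, hs⟩ := Quotient.exact (hr1 (Quotient.mk st x))
      exact ⟨_, s, hs⟩
    · intro c c' s h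
      rw [← hr1 c, ← hr1 c']
      exact Quotient.sound ⟨s, h⟩
  have card : ∀ (X : Type) (ρ : S →* Perm X) (_ : ∀ s x, ρ s x = x ↔ s ∈ Ξ)
      (O : Type) (r : O → X) (_ : ∀ x, ∃ c s, x = ρ s (r c))
      (_ : ∀ c c' s, r c' = ρ s (r c) → c = c'),
      ∃ e : O × (S ⧸ Ξ) ≃ X, ∀ c (s : S), e (c, (s : S ⧸ Ξ)) = ρ s (r c) := by
    intro X ρ hρ O r h1 h2
    let f : O × (S ⧸ Ξ) → X := fun z => Quotient.liftOn' z.2 (fun s => ρ s (r z.1)) (by
      intro s s' h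
      have h' : s⁻¹ * s' ∈ Ξ := QuotientGroup.leftRel_apply.1 h
      have := (hρ _ (r z.1)).2 h'
      rw [map_mul, map_inv, Perm.mul_apply, Perm.inv_eq_iff_eq] at this
      exact this.symm)
    have hf : ∀ c (s : S), f (c, (s : S ⧸ Ξ)) = ρ s (r c) := fun _ _ => rfl
    refine ⟨Equiv.ofBijective f ⟨?_, ?_⟩, hf⟩
    · rintro ⟨c, s⟩ ⟨c', s'⟩ h
      induction s using QuotientGroup.induction_on with | H s =>
      induction s' using QuotientGroup.induction_on with | H s' =>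
      rw [hf, hf] at h
      have h3 : r c' = ρ (s'⁻¹ * s) (r c) := by simp [h]
      obtain rfl := h2 _ _ _ h3
      have h4 := (hρ _ _).1 h3.symm
      refine Prod.ext rfl ?_
      exact (QuotientGroup.eq.2 h4).symm
    · intro x
      obtain ⟨c, s, rfl⟩ := h1 x
      exact ⟨(c, s), rfl⟩
  obtain ⟨O, _, r, o, ho, hro, h1, h2⟩ := key X ρ hρ p hp
  obtain ⟨O', _, r', o', ho', hro', h1', h2'⟩ := key Y σ hσ q hq
  obtain ⟨e, he⟩ := card X ρ hρ O r h1 h2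
  obtain ⟨e', he'⟩ := card Y σ hσ O' r' h1' h2'
  rcases isEmpty_or_nonempty X with hX | ⟨⟨x0⟩⟩
  · have hY : IsEmpty Y := by
      rw [Nat.card_of_isEmpty] at hc
      rcases Nat.card_eq_zero.1 hc.symm with h | h
      · exact h
      · exact absurd h (not_infinite_iff_finite.2 inferInstance)
    exact ⟨Equiv.equivOfIsEmpty X Y, fun _ x => hX.elim x, fun i => hX.elim (p i)⟩
  have hfin : Finite (S ⧸ Ξ) := by
    obtain ⟨c, -, -⟩ := h1 x0
    exact Finite.of_injective (fun s : S ⧸ Ξ => e (c, s))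
      (fun s s' h => (Prod.ext_iff.1 (e.injective h)).2)
  have hO : Nat.card O = Nat.card O' := by
    have e1 := Nat.card_congr e
    have e2 := Nat.card_congr e'
    rw [Nat.card_prod] at e1 e2
    have hpos : 0 < Nat.card (S ⧸ Ξ) := Nat.card_pos
    exact Nat.eq_of_mul_eq_mul_right hpos (e1.trans (hc.trans e2.symm))
  obtain ⟨β0⟩ := Finite.card_eq.1 hO
  have : Finite ι := Finite.of_injective o ho
  obtain ⟨τ, hτ⟩ := Perm.exists_extending_pair (f := fun i => β0 (o i)) (g := o')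
    (β0.injective.comp ho) ho'
  refine ⟨e.symm.trans (((β0.trans τ).prodCongr (Equiv.refl _)).trans e'), ?_, ?_⟩
  · intro s x
    obtain ⟨c, s', rfl⟩ := h1 x
    have a1 : ρ s (ρ s' (r c)) = e (c, ((s * s' : S) : S ⧸ Ξ)) := by rw [he]; simp
    rw [a1, ← he]
    simp only [Equiv.trans_apply, Equiv.symm_apply_apply, Equiv.prodCongr_apply, Prod.map,
      Equiv.coe_refl, id_eq, he', map_mul, Perm.mul_apply]
  · intro i
    have a1 : p i = e (o i, ((1 : S) : S ⧸ Ξ)) := by rw [he, hro]; simp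
    rw [a1]
    simp only [Equiv.trans_apply, Equiv.symm_apply_apply, Equiv.prodCongr_apply, Prod.map,
      Equiv.coe_refl, id_eq, he', hτ, hro', map_one, Perm.one_apply]

end Pool.Agent.P.MP_5e147a_al.H16
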