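import Pool.Agent.P.MP_5e147a_al.H16.Wall

set_option autoImplicit false

namespace Pool.Agent.P.MP_5e147a_al.H16

open Equiv

variable {A B : Type} [Group A] [Group B]

def Wall.sameA (W : Wall A B) (e e' : W.X × Bool) : Prop := ∃ x, e'.1 = W.ρA x e.1
def Wall.sameB (W : Wall A B) (e e' : W.X × Bool) : Prop :=
  ∃ y, W.j e'.2 e'.1 = W.ρB y (W.j e.2 e.1)

/-- A token system following a wall. -/
structure Tok (W : Wall A B) where
  T : Type
  fin : Finite T
  u : Multiplicative (W.X × Bool → ZMod 2) →* Perm T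
  v : Multiplicative (W.X × Bool → ZMod 3) →* Perm T
  tx : W.X → T
  ty : W.Y → T
  m : W.X × Bool → T
  txA : ∀ x ξ, tx (W.ρA x ξ) = tx ξ
  tx_inj : ∀ ξ ξ', tx ξ' = tx ξ → ∃ x, ξ' = W.ρA x ξ
  tyB : ∀ y η, ty (W.ρB y η) = ty η
  m_inj : Function.Injective m
  hu : ∀ e w, w e = 1 → (∀ e', W.sameA e e' → e' ≠ e → w e' = 0) →
    u (Multiplicative.ofAdd w) (tx e.1) = m e
  hv : ∀ e w, w e = 1 → (∀ e', W.sameB e e' → e' ≠ e → w e' = 0) →
    v (Multiplicative.ofAdd w) (m e) = ty (W.j e.2 e.1)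

instance {W : Wall A B} (t : Tok W) : Finite t.T := t.fin

open Classical in
/-- Translation on the cube attached to each face. -/
noncomputable def cube {E I R : Type} [AddCommGroup R] (xf : E → I) :
    Multiplicative (E → R) →* Perm (I × (E → R)) where
  toFun w := Equiv.prodShear (Equiv.refl I) fun i =>
    Equiv.addRight (fun e => if xf e = i then w.toAdd e else 0)
  map_one' := by
    ext1 ⟨i, f⟩
    refine Prod.ext rfl (funext fun e => ?_)
    simp
  map_mul' w w' := by
    ext1 ⟨i, f⟩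
    refine Prod.ext rfl (funext fun e => ?_)
    by_cases h : xf e = i
    · simp [h, add_assoc, add_comm (w.toAdd e)]
    · simp [h]

open Classical in
theorem cube_apply {E I R : Type} [AddCommGroup R] (xf : E → I) (w : E → R) (i : I) (f : E → R) :
    cube xf (Multiplicative.ofAdd w) (i, f) = (i, f + fun e => if xf e = i then w e else 0) := rfl

theorem orb_eq {G Z : Type} [Group G] (ρ : G →* Perm Z) (z z' : Z) :
    Set.range (fun g => ρ g z') = Set.range (fun g => ρ g z) ↔ ∃ g, z' = ρ g z := by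
  constructor
  · intro h
    have : z' ∈ Set.range (fun g => ρ g z') := ⟨1, by simp⟩
    rw [h] at this
    obtain ⟨g, hg⟩ := this
    exact ⟨g, hg.symm⟩
  · rintro ⟨g, rfl⟩
    ext w
    constructor
    · rintro ⟨h, rfl⟩
      exact ⟨h * g, by simp⟩
    · rintro ⟨h, rfl⟩
      exact ⟨h * g⁻¹, by simp⟩

theorem exists_tok (W : Wall A B) : Nonempty (Tok W) := by
  classical
  let E := W.X × Bool
  let fa : W.X → Set W.X := fun ξ => Set.range fun x => W.ρA x ξ
  let fb : W.Y → Set W.Y := fun η => Set.range fun y => W.ρB y η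
  let xf : E → Set W.X := fun e => fa e.1
  let yf : E → Set W.Y := fun e => fb (W.j e.2 e.1)
  let T := (Set W.X × (E → ZMod 2)) ⊕ (Set W.Y × (E → ZMod 3))
  let mA : E → T := fun e => Sum.inl (xf e, Pi.single e 1)
  let mB : E → T := fun e => Sum.inr (yf e, -Pi.single e 1)
  let c : Set W.Y → T := fun y => Sum.inr (y, 0)
  have hmA : Function.Injective mA := by
    intro e e' h
    have h1 : (Pi.single e 1 : E → ZMod 2) = Pi.single e' 1 :=
      (Prod.ext_iff.1 (Sum.inl.inj h)).2
    by_contra hne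
    have := congrFun h1 e
    rw [Pi.single_eq_same, Pi.single_eq_of_ne hne] at this
    exact absurd this (by decide)
  have hmB : Function.Injective mB := by
    intro e e' h
    have h1 : (-Pi.single e 1 : E → ZMod 3) = -Pi.single e' 1 :=
      (Prod.ext_iff.1 (Sum.inr.inj h)).2
    by_contra hne
    have := congrFun (neg_injective h1) e
    rw [Pi.single_eq_same, Pi.single_eq_of_ne hne] at this
    exact absurd this (by decide)
  have hc : Function.Injective c := fun y y' h => (Prod.ext_iff.1 (Sum.inr.inj h)).1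
  have i1 : Function.Injective (Sum.elim mA c) := by
    refine hmA.sumElim hc ?_
    intro e y h
    exact Sum.inl_ne_inr h
  have i2 : Function.Injective (Sum.elim mB c) := by
    refine hmB.sumElim hc ?_
    intro e y h
    have h1 : (-Pi.single e 1 : E → ZMod 3) = 0 := (Prod.ext_iff.1 (Sum.inr.inj h)).2
    have := congrFun h1 e
    rw [Pi.neg_apply, Pi.single_eq_same, Pi.zero_apply] at this
    exact absurd this (by decide)
  obtain ⟨σ, hσ⟩ := Perm.exists_extending_pair (f := Sum.elim mA c) (g := Sum.elim mB c) i1 i2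
  have hσ1 : ∀ e, σ (mA e) = mB e := fun e => hσ (Sum.inl e)
  have hσ2 : ∀ y, σ (c y) = c y := fun y => hσ (Sum.inr y)
  let u : Multiplicative (E → ZMod 2) →* Perm T :=
    (Perm.sumCongrHom _ _).comp ((MonoidHom.inl _ _).comp (cube xf))
  let v0 : Multiplicative (E → ZMod 3) →* Perm T :=
    (Perm.sumCongrHom _ _).comp ((MonoidHom.inr _ _).comp (cube yf))
  refine ⟨⟨T, inferInstance, u, (MulAut.conj σ⁻¹).toMonoidHom.comp v0,
    fun ξ => Sum.inl (fa ξ, 0), fun η => c (fb η), mA, ?_, ?_, ?_, hmA, ?_, ?_⟩⟩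
  · intro x ξ
    have : fa (W.ρA x ξ) = fa ξ := (orb_eq W.ρA _ _).2 ⟨x, rfl⟩
    rw [this]
  · intro ξ ξ' h
    exact (orb_eq W.ρA _ _).1 (Prod.ext_iff.1 (Sum.inl.inj h)).1
  · intro y η
    have : fb (W.ρB y η) = fb η := (orb_eq W.ρB _ _).2 ⟨y, rfl⟩
    rw [this]
  · intro e w h1 h2
    show (Sum.inl (cube xf (Multiplicative.ofAdd w) (fa e.1, 0)) : T) = mA e
    rw [cube_apply]
    refine congrArg Sum.inl (Prod.ext rfl (funext fun e' => ?_))
    show (0 : ZMod 2) + (if xf e' = fa e.1 then w e' else 0) = (Pi.single e 1 : E → ZMod 2) e'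
    by_cases he : e' = e
    · subst he
      rw [if_pos rfl, h1, Pi.single_eq_same, zero_add]
    · rw [Pi.single_eq_of_ne he, zero_add]
      split_ifs with h3
      · exact h2 e' ((orb_eq W.ρA _ _).1 h3) he
      · rfl
  · intro e w h1 h2
    show σ⁻¹ (v0 (Multiplicative.ofAdd w) (σ⁻¹⁻¹ (mA e))) = c (fb (W.j e.2 e.1))
    rw [inv_inv, hσ1, Perm.inv_eq_iff_eq, hσ2]
    show (Sum.inr (cube yf (Multiplicative.ofAdd w) (yf e, -Pi.single e 1)) : T) = _
    rw [cube_apply]
    refine congrArg Sum.inr (Prod.ext rfl (funext fun e' => ?_))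
    show -(Pi.single e 1 : E → ZMod 3) e' + (if yf e' = yf e then w e' else 0) = 0
    by_cases he : e' = e
    · subst he
      rw [if_pos rfl, h1, Pi.single_eq_same, neg_add_cancel]
    · rw [Pi.single_eq_of_ne he, neg_zero, zero_add]
      split_ifs with h3
      · exact h2 e' ((orb_eq W.ρB _ _).1 h3) he
      · rfl

end Pool.Agent.P.MP_5e147a_al.H16
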