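import Pool.Agent.P.MP_5e147a_al.H16.Skew

set_option autoImplicit false

namespace Pool.Agent.P.MP_5e147a_al.H16

open Equiv

/-- The group `A * B * Z`. -/
abbrev SG (A B : Type) [Group A] [Group B] : Type :=
  Monoid.Coprod A (Monoid.Coprod B (FreeGroup Unit))

section
variable {A B : Type} [Group A] [Group B]

def sA : A →* SG A B := Monoid.Coprod.inl
def sB : B →* SG A B := Monoid.Coprod.inr.comp Monoid.Coprod.inl
def sT : SG A B := Monoid.Coprod.inr (Monoid.Coprod.inr (FreeGroup.of ()))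

theorem SG_ind (H : Subgroup (SG A B)) (hA : ∀ x, sA x ∈ H) (hB : ∀ y, sB y ∈ H)
    (hT : (sT : SG A B) ∈ H) (s : SG A B) : s ∈ H := by
  induction s using Monoid.Coprod.induction_on with
  | inl x => exact hA x
  | mul x y hx hy => exact H.mul_mem hx hy
  | inr s =>
    induction s using Monoid.Coprod.induction_on with
    | inl y => exact hB y
    | mul x y hx hy => rw [map_mul]; exact H.mul_mem hx hy
    | inr t =>
      induction t using FreeGroup.induction_on with
      | C1 => simp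
      | of u => exact hT
      | inv_of u h => rw [map_inv, map_inv]; exact H.inv_mem h
      | mul x y hx hy => rw [map_mul, map_mul]; exact H.mul_mem hx hy
end

/-- A two-sorted finite set with free actions of `A` and `B` and two bijections. -/
structure Wall (A B : Type) [Group A] [Group B] where
  X : Type
  Y : Type
  fin : Finite X
  ρA : A →* Perm X
  ρB : B →* Perm Y
  j : Bool → X ≃ Y
  freeA : ∀ x ξ, ρA x ξ = ξ → x = 1
  freeB : ∀ y η, ρB y η = η → y = 1

variable {A B : Type} [Group A] [Group B]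

instance (W : Wall A B) : Finite W.X := W.fin
instance (W : Wall A B) : Finite W.Y := Finite.of_equiv _ (W.j true)

def Wall.act (W : Wall A B) : SG A B →* Perm W.X :=
  Monoid.Coprod.lift W.ρA (Monoid.Coprod.lift
    ((W.j true).symm.permCongrHom.toMonoidHom.comp W.ρB)
    (FreeGroup.lift fun _ => (W.j false).trans (W.j true).symm))

theorem Wall.act_sA (W : Wall A B) (x : A) (ξ : W.X) : W.act (sA x) ξ = W.ρA x ξ := rfl
theorem Wall.act_sB (W : Wall A B) (y : B) (ξ : W.X) :
    W.act (sB y) ξ = (W.j true).symm (W.ρB y (W.j true ξ)) := rfl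
theorem Wall.act_sT (W : Wall A B) (ξ : W.X) :
    W.act sT ξ = (W.j true).symm (W.j false ξ) := by
  simp [Wall.act, sT]

/-- Equivariance of a map defined on an invariant part. -/
theorem Wall.equivariant_on (W W' : Wall A B) (P : W.X → Prop) (P' : W.Y → Prop)
    (f : W.X → W'.X) (f' : W.Y → W'.Y)
    (hPA : ∀ x ξ, P (W.ρA x ξ) ↔ P ξ) (hPB : ∀ y η, P' (W.ρB y η) ↔ P' η)
    (hPj : ∀ i ξ, P' (W.j i ξ) ↔ P ξ)
    (hA : ∀ x ξ, P ξ → f (W.ρA x ξ) = W'.ρA x (f ξ))
    (hB : ∀ y η, P' η → f' (W.ρB y η) = W'.ρB y (f' η))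
    (hj : ∀ i ξ, P ξ → f' (W.j i ξ) = W'.j i (f ξ)) (s : SG A B) :
    (∀ ξ, P (W.act s ξ) ↔ P ξ) ∧ ∀ ξ, P ξ → f (W.act s ξ) = W'.act s (f ξ) := by
  let H : Subgroup (SG A B) :=
    { carrier := {s | (∀ ξ, P (W.act s ξ) ↔ P ξ) ∧ ∀ ξ, P ξ → f (W.act s ξ) = W'.act s (f ξ)}
      one_mem' := ⟨fun ξ => by simp, fun ξ _ => by simp⟩
      mul_mem' := by
        rintro s t ⟨h1, h2⟩ ⟨h3, h4⟩
        refine ⟨fun ξ => ?_, fun ξ hξ => ?_⟩
        · rw [map_mul, Perm.mul_apply, h1, h3]
        · rw [map_mul, map_mul, Perm.mul_apply, Perm.mul_apply, h2 _ ((h3 _).2 hξ), h4 _ hξ]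
      inv_mem' := by
        rintro s ⟨h1, h2⟩
        have h3 : ∀ ξ, P (W.act s⁻¹ ξ) ↔ P ξ := by
          intro ξ
          rw [← h1 (W.act s⁻¹ ξ)]
          simp
        refine ⟨h3, fun ξ hξ => ?_⟩
        have := h2 _ ((h3 ξ).2 hξ)
        rw [map_inv W'.act, Perm.eq_inv_iff_eq, ← this]
        simp }
  have hsymm : ∀ η, P ((W.j true).symm η) ↔ P' η := by
    intro η
    rw [← hPj true]
    simp
  have hjs : ∀ η, P' η → f ((W.j true).symm η) = (W'.j true).symm (f' η) := by
    intro η hη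
    rw [Equiv.eq_symm_apply, ← hj true _ ((hsymm η).2 hη)]
    simp
  refine SG_ind H (fun x => ⟨fun ξ => hPA x ξ, fun ξ hξ => hA x ξ hξ⟩) (fun y => ⟨fun ξ => ?_,
    fun ξ hξ => ?_⟩) ⟨fun ξ => ?_, fun ξ hξ => ?_⟩ s
  · rw [Wall.act_sB, hsymm, hPB, hPj]
  · rw [Wall.act_sB, Wall.act_sB, hjs _ ((hPB _ _).2 ((hPj _ _).2 hξ)), hB _ _ ((hPj _ _).2 hξ),
      hj _ _ hξ]
  · rw [Wall.act_sT, hsymm, hPj]
  · rw [Wall.act_sT, Wall.act_sT, hjs _ ((hPj _ _).2 hξ), hj _ _ hξ]

theorem Wall.equivariant (W W' : Wall A B) (f : W.X → W'.X) (f' : W.Y → W'.Y)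
    (hA : ∀ x ξ, f (W.ρA x ξ) = W'.ρA x (f ξ))
    (hB : ∀ y η, f' (W.ρB y η) = W'.ρB y (f' η))
    (hj : ∀ i ξ, f' (W.j i ξ) = W'.j i (f ξ)) (s : SG A B) (ξ : W.X) :
    f (W.act s ξ) = W'.act s (f ξ) :=
  (Wall.equivariant_on W W' (fun _ => True) (fun _ => True) f f' (fun _ _ => Iff.rfl)
    (fun _ _ => Iff.rfl) (fun _ _ => Iff.rfl) (fun x ξ _ => hA x ξ) (fun y η _ => hB y η)
    (fun i ξ _ => hj i ξ) s).2 ξ trivial

/-- The permutation of the first coordinate. -/
def fstHom {G Z : Type} [Group G] (ρ : G →* Perm Z) (Fb : Type) : G →* Perm (Z × Fb) where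
  toFun g := Equiv.prodCongr (ρ g) (Equiv.refl Fb)
  map_one' := by ext1 ⟨z, f⟩; simp
  map_mul' g h := by ext1 ⟨z, f⟩; simp

@[simp] theorem fstHom_apply {G Z : Type} [Group G] (ρ : G →* Perm Z) (Fb : Type) (g : G)
    (z : Z) (f : Fb) : fstHom ρ Fb g (z, f) = (ρ g z, f) := rfl

/-- Voltage lift of a wall. -/
def Wall.lift (W : Wall A B) (Fb : Type) [Finite Fb] (ν : W.X × Bool → Perm Fb) : Wall A B where
  X := W.X × Fb
  Y := W.Y × Fb
  fin := inferInstance
  ρA := fstHom W.ρA Fb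
  ρB := fstHom W.ρB Fb
  j i := Equiv.prodShear (W.j i) fun ξ => ν (ξ, i)
  freeA := fun x ⟨ξ, _⟩ h => W.freeA x ξ (congrArg Prod.fst h)
  freeB := fun y ⟨η, _⟩ h => W.freeB y η (congrArg Prod.fst h)

theorem Wall.lift_ρA (W : Wall A B) (Fb : Type) [Finite Fb] (ν : W.X × Bool → Perm Fb) (x : A)
    (ξ : W.X) (f : Fb) : (W.lift Fb ν).ρA x (ξ, f) = (W.ρA x ξ, f) := rfl
theorem Wall.lift_ρB (W : Wall A B) (Fb : Type) [Finite Fb] (ν : W.X × Bool → Perm Fb) (y : B)
    (η : W.Y) (f : Fb) : (W.lift Fb ν).ρB y (η, f) = (W.ρB y η, f) := rfl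
theorem Wall.lift_j (W : Wall A B) (Fb : Type) [Finite Fb] (ν : W.X × Bool → Perm Fb) (i : Bool)
    (ξ : W.X) (f : Fb) : (W.lift Fb ν).j i (ξ, f) = (W.j i ξ, ν (ξ, i) f) := rfl

/-- A good normal subgroup. -/
structure Good (N : Subgroup (SG A B)) : Prop where
  normal : N.Normal
  fi : N.FiniteIndex
  hA : ∀ x, sA x ∈ N → x = 1
  hB : ∀ y, sB y ∈ N → y = 1

/-- The regular wall. -/
noncomputable def reg (N : Subgroup (SG A B)) (h : Good N) : Wall A B :=
  haveI := h.normal
  haveI := h.fi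
  { X := SG A B ⧸ N
    Y := SG A B ⧸ N
    fin := inferInstance
    ρA := (MulAction.toPermHom (SG A B) (SG A B ⧸ N)).comp sA
    ρB := (MulAction.toPermHom (SG A B) (SG A B ⧸ N)).comp sB
    j := fun i => cond i (Equiv.refl _) (MulAction.toPermHom (SG A B) (SG A B ⧸ N) sT)
    freeA := by
      intro x ξ hx
      induction ξ using QuotientGroup.induction_on with | H s =>
      have h1 : ((sA x * s : SG A B) : SG A B ⧸ N) = s := hx
      have h2 := QuotientGroup.eq.1 h1.symm
      apply h.hA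
      have := h.normal.conj_mem _ h2 s
      simpa [mul_assoc] using this
    freeB := by
      intro y ξ hy
      induction ξ using QuotientGroup.induction_on with | H s =>
      have h1 : ((sB y * s : SG A B) : SG A B ⧸ N) = s := hy
      have h2 := QuotientGroup.eq.1 h1.symm
      apply h.hB
      have := h.normal.conj_mem _ h2 s
      simpa [mul_assoc] using this }

/-- The class of an element as a point of the regular wall. -/
def rk (N : Subgroup (SG A B)) (h : Good N) (s : SG A B) : (reg N h).X := (s : SG A B ⧸ N)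

theorem rk_surj (N : Subgroup (SG A B)) (h : Good N) (q : (reg N h).X) : ∃ s, rk N h s = q :=
  QuotientGroup.mk_surjective q

theorem reg_act (N : Subgroup (SG A B)) (h : Good N) (s t : SG A B) :
    (reg N h).act s (rk N h t) = rk N h (s * t) := by
  let H : Subgroup (SG A B) :=
    { carrier := {s | ∀ t, (reg N h).act s (rk N h t) = rk N h (s * t)}
      one_mem' := fun t => by simp
      mul_mem' := fun {a b} ha hb t => by rw [map_mul, Perm.mul_apply, hb, ha, mul_assoc]
      inv_mem' := fun {a} ha t => by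
        rw [map_inv, Perm.inv_eq_iff_eq, ha]
        simp }
  refine SG_ind H (fun x t => rfl) (fun y t => rfl) (fun t => ?_) s t
  rw [Wall.act_sT]
  rfl

theorem mem_of_reg_act (N : Subgroup (SG A B)) (h : Good N) (s : SG A B)
    (hs : (reg N h).act s (rk N h 1) = rk N h 1) : s ∈ N := by
  rw [reg_act, mul_one] at hs
  have := QuotientGroup.eq.1 hs.symm
  simpa using this

theorem reg_ker (N : Subgroup (SG A B)) (h : Good N) : N ≤ (reg N h).act.ker := by
  intro s hs
  rw [MonoidHom.mem_ker]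
  ext1 q
  obtain ⟨t, rfl⟩ := rk_surj N h q
  rw [reg_act]
  apply QuotientGroup.eq.2
  have := h.normal.conj_mem _ (N.inv_mem hs) t⁻¹
  simpa [mul_assoc] using this

/-- A morphism of walls. -/
structure Mor (W W' : Wall A B) where
  f : W.X → W'.X
  f' : W.Y → W'.Y
  hA : ∀ x ξ, f (W.ρA x ξ) = W'.ρA x (f ξ)
  hB : ∀ y η, f' (W.ρB y η) = W'.ρB y (f' η)
  hj : ∀ i ξ, f' (W.j i ξ) = W'.j i (f ξ)

theorem Mor.act {W W' : Wall A B} (m : Mor W W') (s : SG A B) (ξ : W.X) :
    m.f (W.act s ξ) = W'.act s (m.f ξ) :=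
  Wall.equivariant W W' m.f m.f' m.hA m.hB m.hj s ξ

/-- The orbit map from the regular wall. -/
noncomputable def regMor (N : Subgroup (SG A B)) (h : Good N) (W : Wall A B) (hN : N ≤ W.act.ker)
    (k : W.X) : Mor (reg N h) W :=
  haveI := h.normal
  { f := fun q => QuotientGroup.lift N W.act hN q k
    f' := fun q => W.j true (QuotientGroup.lift N W.act hN q k)
    hA := by
      intro x q
      obtain ⟨t, rfl⟩ := rk_surj N h q
      show W.act (sA x * t) k = W.ρA x (W.act t k)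
      rw [map_mul]
      rfl
    hB := by
      intro y q
      obtain ⟨t, rfl⟩ := rk_surj N h q
      show W.j true (W.act (sB y * t) k) = W.ρB y (W.j true (W.act t k))
      rw [map_mul, Perm.mul_apply, Wall.act_sB]
      simp
    hj := by
      intro i q
      obtain ⟨t, rfl⟩ := rk_surj N h q
      cases i
      · show W.j true (W.act (sT * t) k) = W.j false (W.act t k)
        rw [map_mul, Perm.mul_apply, Wall.act_sT]
        simp
      · rfl }

theorem regMor_rk (N : Subgroup (SG A B)) (h : Good N) (W : Wall A B) (hN : N ≤ W.act.ker)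
    (k : W.X) (s : SG A B) : (regMor N h W hN k).f (rk N h s) = W.act s k := rfl

end Pool.Agent.P.MP_5e147a_al.H16
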